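import Pool.Agent.L5helper35.CN.Defs

/-!
# Tokens: the difference of two runs of a comparator circuit with NOT gates
-/

namespace Pool.Agent.L5helper35.CT

open Finset Pool.Agent.L5helper35.CN

section

variable {W : Type} [DecidableEq W]

/-- One step of the tokens: `v` is the run to which others are compared, `δ` tells where the other
run may be different. Tokens which meet at different bits pass each other. -/
def tstep : Gate W → (W → Bool) → (W → Bool) → W → Bool
  | .cmp a b, v, δ => if v a = v b then (if v a = true then step (.cmp b a) δ else step (.cmp a b) δ)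
      else if v a = true then (fun w => δ (Equiv.swap a b w)) else δ
  | .neg _, _, δ => δ

/-- the tokens at the end -/
def trun : List (Gate W) → (W → Bool) → (W → Bool) → W → Bool
  | [], _, δ => δ
  | g :: G, v, δ => trun G (step g v) (tstep g v δ)

/-- the number of comparators where two tokens meet at different bits -/
def ann : List (Gate W) → (W → Bool) → (W → Bool) → ℕ
  | [], _, _ => 0
  | .cmp a b :: G, v, v' => (if v a ≠ v b ∧ v' a ≠ v a ∧ v' b ≠ v b then 1 else 0) +
      ann G (step (.cmp a b) v) (step (.cmp a b) v')
  | .neg a :: G, v, v' => ann G (step (.neg a) v) (step (.neg a) v')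

theorem step_cmp_self (a : W) (v : W → Bool) : step (.cmp a a) v = v := by
  funext w
  simp only [step]
  by_cases h : w = a
  · subst h; simp
  · simp [h]

theorem step_a (a b : W) (v : W → Bool) : step (.cmp a b) v a = (v a && v b) := by
  simp [step]

theorem step_b (a b : W) (hab : b ≠ a) (v : W → Bool) : step (.cmp a b) v b = (v a || v b) := by
  simp [step, hab]

theorem step_ne (a b w : W) (ha : w ≠ a) (hb : w ≠ b) (v : W → Bool) :
    step (.cmp a b) v w = v w := by
  simp [step, ha, hb]

theorem tstep_a (a b : W) (hab : b ≠ a) (v δ : W → Bool) : tstep (.cmp a b) v δ a =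
    if v a = v b then (if v a = true then δ a || δ b else δ a && δ b) else
      if v a = true then δ b else δ a := by
  simp only [tstep]
  split_ifs
  · rw [step_b b a hab.symm, Bool.or_comm]
  · rw [step_a]
  · show δ (Equiv.swap a b a) = δ b
    rw [Equiv.swap_apply_left]
  · rfl

theorem tstep_b (a b : W) (hab : b ≠ a) (v δ : W → Bool) : tstep (.cmp a b) v δ b =
    if v a = v b then (if v a = true then δ a && δ b else δ a || δ b) else
      if v a = true then δ a else δ b := by
  simp only [tstep]
  split_ifs
  · rw [step_a, Bool.and_comm]
  · rw [step_b a b hab]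
  · show δ (Equiv.swap a b b) = δ a
    rw [Equiv.swap_apply_right]
  · rfl

theorem tstep_ne (a b w : W) (ha : w ≠ a) (hb : w ≠ b) (v δ : W → Bool) :
    tstep (.cmp a b) v δ w = δ w := by
  simp only [tstep]
  split_ifs
  · exact step_ne b a w hb ha δ
  · exact step_ne a b w ha hb δ
  · show δ (Equiv.swap a b w) = δ w
    rw [Equiv.swap_apply_of_ne_of_ne ha hb]
  · rfl

/-- where the runs differ there is a token -/
theorem tstep_upper (g : Gate W) (v v' δ : W → Bool) (h : ∀ w, v w ≠ v' w → δ w = true) (w : W)
    (hw : step g v w ≠ step g v' w) : tstep g v δ w = true := by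
  cases g with
  | neg a =>
    simp only [tstep]
    apply h
    intro h1
    apply hw
    simp only [step]
    split_ifs with h2
    · subst h2
      rw [h1]
    · exact h1
  | cmp a b =>
    by_cases hab : b = a
    · subst hab
      rw [step_cmp_self, step_cmp_self] at hw
      simp only [tstep]
      split_ifs
      · rw [step_cmp_self]; exact h w hw
      · rw [step_cmp_self]; exact h w hw
      all_goals exact absurd trivial ‹¬ True›
    · by_cases ha : w = a
      · subst ha
        rw [tstep_a w b hab]
        rw [step_a, step_a] at hw
        have h1 := h w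
        have h2 := h b
        revert h1 h2 hw
        generalize v w = x
        generalize v b = y
        generalize v' w = x'
        generalize v' b = y'
        generalize δ w = p
        generalize δ b = q
        revert x y x' y' p q
        decide
      · by_cases hb : w = b
        · subst hb
          rw [tstep_b a w hab]
          rw [step_b a w hab, step_b a w hab] at hw
          have h1 := h a
          have h2 := h w
          revert h1 h2 hw
          generalize v a = x
          generalize v w = y
          generalize v' a = x'
          generalize v' w = y'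
          generalize δ a = p
          generalize δ w = q
          revert x y x' y' p q
          decide
        · rw [tstep_ne a b w ha hb]
          rw [step_ne a b w ha hb, step_ne a b w ha hb] at hw
          exact h w hw

theorem trun_upper (G : List (Gate W)) : ∀ (v v' δ : W → Bool), (∀ w, v w ≠ v' w → δ w = true) →
    ∀ w, run G v w ≠ run G v' w → trun G v δ w = true := by
  induction G with
  | nil => intro v v' δ h w hw; exact h w hw
  | cons g G ih =>
    intro v v' δ h w hw
    exact ih _ _ _ (fun w hw => tstep_upper g v v' δ h w hw) w hw

/-- without meetings the tokens are exact -/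
theorem tstep_exact (g : Gate W) (v v' δ : W → Bool) (h : ∀ w, δ w = (v w != v' w))
    (hg : ∀ a b, g = .cmp a b → ¬ (v a ≠ v b ∧ v' a ≠ v a ∧ v' b ≠ v b)) (w : W) :
    tstep g v δ w = (step g v w != step g v' w) := by
  cases g with
  | neg a =>
    simp only [tstep, step]
    rw [h]
    split_ifs with h2
    · subst h2
      cases v w <;> cases v' w <;> rfl
    · rfl
  | cmp a b =>
    have hg := hg a b rfl
    by_cases hab : b = a
    · subst hab
      rw [step_cmp_self, step_cmp_self]
      simp only [tstep]
      split_ifs
      · rw [step_cmp_self]; exact h w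
      · rw [step_cmp_self]; exact h w
      all_goals exact absurd trivial ‹¬ True›
    · by_cases ha : w = a
      · subst ha
        rw [tstep_a w b hab, step_a, step_a, h w, h b]
        revert hg
        generalize v w = x
        generalize v b = y
        generalize v' w = x'
        generalize v' b = y'
        revert x y x' y'
        decide
      · by_cases hb : w = b
        · subst hb
          rw [tstep_b a w hab, step_b a w hab, step_b a w hab, h a, h w]
          revert hg
          generalize v a = x
          generalize v w = y
          generalize v' a = x'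
          generalize v' w = y'
          revert x y x' y'
          decide
        · rw [tstep_ne a b w ha hb, step_ne a b w ha hb, step_ne a b w ha hb]
          exact h w

theorem trun_exact (G : List (Gate W)) : ∀ (v v' δ : W → Bool), (∀ w, δ w = (v w != v' w)) →
    ann G v v' = 0 → ∀ w, trun G v δ w = (run G v w != run G v' w) := by
  induction G with
  | nil => intro v v' δ h _ w; exact h w
  | cons g G ih =>
    intro v v' δ h hann w
    cases g with
    | neg a =>
      exact ih _ _ _ (tstep_exact (.neg a) v v' δ h (fun a b hab => by cases hab)) hann w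
    | cmp a b =>
      simp only [ann] at hann
      have h1 : ¬ (v a ≠ v b ∧ v' a ≠ v a ∧ v' b ≠ v b) := by
        intro h2
        rw [if_pos h2] at hann
        omega
      have h3 : ann G (step (.cmp a b) v) (step (.cmp a b) v') = 0 := by omega
      refine ih _ _ _ (tstep_exact (.cmp a b) v v' δ h ?_) h3 w
      intro a' b' hab
      cases hab
      exact h1

/-- the tokens are computed by comparators -/
theorem trun_gates (G : List (Gate W)) : ∀ v : W → Bool, ∃ (G' : List (Gate W)) (φ : W → W),
    negs G' = 0 ∧ ∀ δ w, trun G v δ w = run G' δ (φ w) := by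
  induction G with
  | nil => intro v; exact ⟨[], id, rfl, fun _ _ => rfl⟩
  | cons g G ih =>
    intro v
    obtain ⟨G1, φ, h1, h2⟩ := ih (step g v)
    cases g with
    | neg a => exact ⟨G1, φ, h1, fun δ w => h2 δ w⟩
    | cmp a b =>
      by_cases hab : v a = v b
      · by_cases ha : v a = true
        · refine ⟨.cmp b a :: G1, φ, h1, fun δ w => ?_⟩
          simp only [trun, run, tstep, if_pos hab, if_pos ha]
          exact h2 _ w
        · refine ⟨.cmp a b :: G1, φ, h1, fun δ w => ?_⟩
          simp only [trun, run, tstep, if_pos hab, if_neg ha]
          exact h2 _ w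
      · by_cases ha : v a = true
        · refine ⟨G1.map (Gate.map (Equiv.swap a b)), fun w => Equiv.swap a b (φ w), ?_,
            fun δ w => ?_⟩
          · rw [negs_map]; exact h1
          · simp only [trun, tstep, if_neg hab, if_pos ha]
            rw [h2, (run_map _ (Equiv.swap a b).injective G1 δ).1]
        · refine ⟨G1, φ, h1, fun δ w => ?_⟩
          simp only [trun, tstep, if_neg hab, if_neg ha]
          exact h2 _ w

end

section

variable {W : Type} [Fintype W] [DecidableEq W]

/-- one if the bit drops -/
def dn (c c' : Bool) : ℕ := if c = true ∧ c' = false then 1 else 0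

/-- the number of wires whose bit drops -/
def drops (v v' : W → Bool) : ℕ := ∑ w, dn (v w) (v' w)

theorem drops_cmp (a b : W) (v v' : W → Bool) :
    drops (step (.cmp a b) v) (step (.cmp a b) v') +
      (if v a ≠ v b ∧ v' a ≠ v a ∧ v' b ≠ v b then 1 else 0) = drops v v' := by
  by_cases hab : b = a
  · subst hab
    rw [step_cmp_self, step_cmp_self]
    simp
  · unfold drops
    have hm : b ∈ univ.erase a := mem_erase.2 ⟨hab, mem_univ _⟩
    rw [← add_sum_erase univ _ (mem_univ a), ← add_sum_erase univ _ (mem_univ a),
      ← add_sum_erase (univ.erase a) _ hm, ← add_sum_erase (univ.erase a) _ hm]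
    have e : ∑ w ∈ (univ.erase a).erase b, dn (step (.cmp a b) v w) (step (.cmp a b) v' w) =
        ∑ w ∈ (univ.erase a).erase b, dn (v w) (v' w) := by
      apply sum_congr rfl
      intro w hw
      rw [mem_erase, mem_erase] at hw
      rw [step_ne a b w hw.2.1 hw.1, step_ne a b w hw.2.1 hw.1]
    have key : ∀ x y x' y' : Bool, dn (x && y) (x' && y') + dn (x || y) (x' || y') +
        (if x ≠ y ∧ x' ≠ x ∧ y' ≠ y then 1 else 0) = dn x x' + dn y y' := by decide
    have h1 := key (v a) (v b) (v' a) (v' b)
    rw [e, step_a, step_a, step_b a b hab, step_b a b hab]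
    omega

theorem drops_neg (a : W) (v v' : W → Bool) :
    drops (step (.neg a) v) (step (.neg a) v') + dn (v a) (v' a) = drops v v' + dn (v' a) (v a) := by
  unfold drops
  rw [← add_sum_erase univ _ (mem_univ a), ← add_sum_erase univ _ (mem_univ a)]
  have e : ∑ w ∈ univ.erase a, dn (step (.neg a) v w) (step (.neg a) v' w) =
      ∑ w ∈ univ.erase a, dn (v w) (v' w) := by
    apply sum_congr rfl
    intro w hw
    rw [mem_erase] at hw
    simp [step, hw.1]
  rw [e]
  have e1 : step (.neg a) v a = !v a := by simp [step]
  have e2 : step (.neg a) v' a = !v' a := by simp [step]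
  rw [e1, e2]
  have key : ∀ x x' : Bool, dn (!x) (!x') = dn x' x := by decide
  rw [key]
  omega

theorem ups_downs (c : ℕ → Bool) (L : ℕ) :
    ∑ i ∈ range L, dn (c (i + 1)) (c i) + (if c 0 then 1 else 0) =
      ∑ i ∈ range L, dn (c i) (c (i + 1)) + (if c L then 1 else 0) := by
  induction L with
  | zero => simp
  | succ L ih =>
    rw [sum_range_succ, sum_range_succ]
    have key : ∀ x y : Bool, dn y x + (if x then 1 else 0) = dn x y + (if y then 1 else 0) := by
      decide
    have := key (c L) (c (L + 1))
    omega

/-- **Meetings of tokens along a chain.** -/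
theorem chain_ann (G : List (Gate W)) : ∀ (L : ℕ) (X : ℕ → W → Bool),
    ∑ i ∈ range L, ann G (X i) (X (i + 1)) ≤ ∑ i ∈ range L, drops (X i) (X (i + 1)) + negs G := by
  induction G with
  | nil =>
    intro L X
    simp [ann]
  | cons g G ih =>
    intro L X
    cases g with
    | cmp a b =>
      have h1 := ih L fun i => step (.cmp a b) (X i)
      have h2 : ∑ i ∈ range L, (drops (step (.cmp a b) (X i)) (step (.cmp a b) (X (i + 1))) +
          (if X i a ≠ X i b ∧ X (i + 1) a ≠ X i a ∧ X (i + 1) b ≠ X i b then 1 else 0)) =
          ∑ i ∈ range L, drops (X i) (X (i + 1)) :=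
        sum_congr rfl fun i _ => drops_cmp a b (X i) (X (i + 1))
      rw [sum_add_distrib] at h2
      simp only [ann, negs]
      rw [sum_add_distrib]
      omega
    | neg a =>
      have h1 := ih L fun i => step (.neg a) (X i)
      have hu := ups_downs (fun i => X i a) L
      have h3 : ∑ i ∈ range L, (drops (step (.neg a) (X i)) (step (.neg a) (X (i + 1))) +
          dn (X i a) (X (i + 1) a)) =
          ∑ i ∈ range L, (drops (X i) (X (i + 1)) + dn (X (i + 1) a) (X i a)) :=
        sum_congr rfl fun i _ => drops_neg a (X i) (X (i + 1))
      rw [sum_add_distrib, sum_add_distrib] at h3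
      simp only [ann, negs]
      split_ifs at hu <;> omega

/-- chains of inputs: at most `t` meetings -/
theorem chain_ann_mono (G : List (Gate W)) (X : ℕ → W → Bool)
    (hX : ∀ i w, X i w = true → X (i + 1) w = true) (L : ℕ) :
    ∑ i ∈ range L, ann G (X i) (X (i + 1)) ≤ negs G := by
  have h1 := chain_ann G L X
  have h2 : ∑ i ∈ range L, drops (X i) (X (i + 1)) = 0 := by
    apply sum_eq_zero
    intro i _
    unfold drops
    apply sum_eq_zero
    intro w _
    unfold dn
    rw [if_neg]
    rintro ⟨h3, h4⟩
    rw [hX i w h3] at h4
    exact absurd h4 (by simp)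
  omega

end

end Pool.Agent.L5helper35.CT
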