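import Pool.Agent.L5helper35.CN.Gen
import Pool.Agent.L5helper35.CT.Token

/-!
# Fewer than `L` NOT gates do not help for the disjunction of `L` copies of a monotone function
-/

namespace Pool.Agent.L5helper35.CT

open Finset Pool.Agent.L5helper35.CN

section

variable {I : Type} {L : ℕ}

theorem exists_index (N : Circuit (Fin L × I)) (ht : negs N.gates < L)
    (s : Fin L → I → Bool) : ∃ i : Fin L,
      ann N.gates (st N (full s i fun _ => false)) (st N (full s i (s i))) = 0 := by
  classical
  let X : ℕ → Fin N.wires → Bool := fun i => st N (full s i fun _ => false)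
  have hX : ∀ i, ∀ q, full s i (fun _ => false) q = true → full s (i + 1) (fun _ => false) q = true := by
    intro i q hq
    unfold full at hq ⊢
    by_cases h3 : q.1.val < i
    · rw [if_pos h3] at hq
      rw [if_pos (by omega)]
      exact hq
    · rw [if_neg h3] at hq
      split_ifs at hq
  have h1 := chain_ann_mono N.gates X (fun i w => st_mono N _ _ (hX i) w) L
  have h3 : ∃ i ∈ range L, ann N.gates (X i) (X (i + 1)) = 0 := by
    by_contra hcon
    push Not at hcon
    have h4 : ∑ _i ∈ range L, 1 ≤ ∑ i ∈ range L, ann N.gates (X i) (X (i + 1)) :=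
      sum_le_sum fun i hi => Nat.one_le_iff_ne_zero.2 (hcon i hi)
    rw [sum_const, card_range, smul_eq_mul, mul_one] at h4
    omega
  obtain ⟨i, hi, h4⟩ := h3
  refine ⟨⟨i, mem_range.1 hi⟩, ?_⟩
  rw [full_succ s ⟨i, mem_range.1 hi⟩]
  exact h4

/-- the label of a wire of the circuit for the block `i` -/
def tlab (N : Circuit (Fin L × I)) (i : Fin L) (w : Fin N.wires) : I ⊕ Bool :=
  match N.label w with
    | .inr _ => .inr false
    | .inl q => if q.1.val = i.val then .inl q.2 else .inr false

theorem bit_tlab (N : Circuit (Fin L × I)) (s : Fin L → I → Bool) (i : Fin L) (z : I → Bool)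
    (w : Fin N.wires) : bit z (tlab N i w) =
      (st N (full s i fun _ => false) w != st N (full s i z) w) := by
  unfold tlab st
  cases N.label w with
  | inr b => cases b <;> rfl
  | inl q =>
    simp only [bit, full]
    by_cases h1 : q.1.val < i.val
    · have h2 : ¬ q.1.val = i.val := by omega
      simp only [if_pos h1, if_neg h2]
      cases s q.1 q.2 <;> rfl
    · by_cases h2 : q.1.val = i.val
      · simp only [if_neg h1, if_pos h2]
        cases z q.2 <;> rfl
      · simp only [if_neg h1, if_neg h2]
        rfl

variable [Fintype I]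

/-- For every set `U` of zeros of `f` there are an index and values of the earlier blocks such that
for a fraction `1 / L` of `U` no tokens meet. -/
theorem exists_prefix [DecidableEq I] (f : (I → Bool) → Bool) (N : Circuit (Fin L × I))
    (ht : negs N.gates < L) (U : Finset (I → Bool)) (hU : ∀ v ∈ U, f v = false)
    (hne : U.Nonempty) : ∃ (i : Fin L) (s : Fin L → {v : I → Bool // f v = false})
      (V : Finset (I → Bool)), V ⊆ U ∧ (∀ v ∈ V, ann N.gates (st N (full (fun l => (s l).1) i
        fun _ => false)) (st N (full (fun l => (s l).1) i v)) = 0) ∧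
      U.card ≤ L * V.card := by
  classical
  have : Nonempty U := hne.to_subtype
  let T : Fin L → Finset (Fin L → U) := fun i =>
    univ.filter fun s => ann N.gates (st N (full (fun l => (s l).1) i fun _ => false))
      (st N (full (fun l => (s l).1) i (s i).1)) = 0
  have h1 : Fintype.card (Fin L → U) ≤ ∑ i, (T i).card := by
    rw [← card_univ]
    refine le_trans (card_le_card ?_) card_biUnion_le
    intro s _
    obtain ⟨i, hi⟩ := exists_index N ht (fun l => (s l).1)
    exact mem_biUnion.2 ⟨i, mem_univ _, mem_filter.2 ⟨mem_univ _, hi⟩⟩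
  have h2 : ∃ i, Fintype.card (Fin L → U) ≤ L * (T i).card := by
    by_contra hcon
    push Not at hcon
    have hL : (univ : Finset (Fin L)).Nonempty := ⟨⟨0, by omega⟩, mem_univ _⟩
    have h3 : ∑ i, L * (T i).card < ∑ _i : Fin L, Fintype.card (Fin L → U) :=
      sum_lt_sum_of_nonempty hL fun i _ => hcon i
    rw [sum_const, card_univ, Fintype.card_fin, smul_eq_mul, ← mul_sum] at h3
    have h4 := Nat.mul_le_mul_left L h1
    omega
  obtain ⟨i, hi⟩ := h2
  obtain ⟨s, hs⟩ := exists_slice L (T i) i hi
  refine ⟨i, fun l => ⟨(s l).1, hU _ (s l).2⟩,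
    (univ.filter fun a : U => Function.update s i a ∈ T i).image Subtype.val, ?_, ?_, ?_⟩
  · intro v hv
    obtain ⟨a, -, rfl⟩ := mem_image.1 hv
    exact a.2
  · intro v hv
    obtain ⟨a, ha, rfl⟩ := mem_image.1 hv
    have h3 := (mem_filter.1 (mem_filter.1 ha).2).2
    rw [Function.update_self, full_congr (fun l => (Function.update s i a l).1) (fun l => (s l).1) i
      (fun _ => false) (fun l hl => by
        rw [Function.update_of_ne]; intro h; rw [h] at hl; omega),
      full_congr (fun l => (Function.update s i a l).1) (fun l => (s l).1) i a.1 (fun l hl => by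
        rw [Function.update_of_ne]; intro h; rw [h] at hl; omega)] at h3
    exact h3
  · rw [card_image_of_injective _ Subtype.val_injective]
    rwa [Fintype.card_coe] at hs

/-- **Fewer than `L` NOT gates do not help for the disjunction of `L` copies.** -/
theorem no_help (f : (I → Bool) → Bool)
    (hf : ∀ x y : I → Bool, (∀ i, x i = true → y i = true) → f x = true → f y = true)
    (N : Circuit (Fin L × I)) (hN : ComputesOr f N) (ht : negs N.gates < L) :
    Cmp 0 (L * (Fintype.card I + 1) * N.wires + 1) f := by
  classical
  by_cases h0 : f (fun _ => false) = false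
  swap
  · have h1 : (fun x : I → Bool => bit x (.inr true)) = f := by
      funext x
      rw [Bool.not_eq_false] at h0
      exact (hf (fun _ => false) x (fun i hi => absurd hi (by simp)) h0).symm
    rw [← h1]
    exact (cmp_label (.inr true)).mono le_rfl (by omega)
  let No : Finset (I → Bool) := univ.filter fun v => f v = false
  let H : Type := Fin L × (Fin L → {v : I → Bool // f v = false})
  let lo : H → Fin N.wires → Bool := fun p => st N (full (fun l => (p.2 l).1) p.1 fun _ => false)
  let hi : H → (I → Bool) → Fin N.wires → Bool := fun p v =>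
    st N (full (fun l => (p.2 l).1) p.1 v)
  let cov : H → (I → Bool) → Prop := fun p v => ann N.gates (lo p) (hi p v) = 0
  have hcov : ∀ U ⊆ No, U.Nonempty → ∃ x : H, ∃ V ⊆ U, (∀ v ∈ V, cov x v) ∧
      U.card ≤ L * V.card := by
    intro U hU hne
    obtain ⟨i, s, V, h1, h2, h3⟩ := exists_prefix f N ht U
      (fun v hv => (mem_filter.1 (hU hv)).2) hne
    exact ⟨(i, s), V, h1, h2, h3⟩
  have hcard : No.card ≤ 2 ^ Fintype.card I := by
    have h1 := card_le_univ No
    rwa [Fintype.card_fun, Fintype.card_bool] at h1
  obtain ⟨hs, hlen, hcover⟩ := exists_cover cov L (by omega) No hcov _ hcard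
  -- the functions
  let g : H → (I → Bool) → Bool := fun p z =>
    trun N.gates (lo p) (fun w => bit z (tlab N p.1 w)) N.out
  have hgc : ∀ p, Cmp 0 N.wires (g p) := by
    intro p
    obtain ⟨G', φ, h1, h2⟩ := trun_gates N.gates (lo p)
    have h := cmp_of_type (tlab N p.1) G' (φ N.out)
    rw [h1, Fintype.card_fin] at h
    have e : (fun x : I → Bool => run G' (fun w => bit x (tlab N p.1 w)) (φ N.out)) = g p := by
      funext x
      exact (h2 _ _).symm
    rw [e] at h
    exact h
  have hall := Cmp.all hs g fun p _ => hgc p
  -- the values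
  have hlo : ∀ p, run N.gates (lo p) N.out = false := by
    intro p
    have h4 : N.value (full (fun l => (p.2 l).1) p.1 fun _ => false) = false := by
      rw [← Bool.not_eq_true, hN]
      rintro ⟨l, hl⟩
      rw [full_no f h0 _ _ (fun l => (p.2 l).2) _ h0 l] at hl
      exact absurd hl (by simp)
    exact h4
  have hδ : ∀ p z w, bit z (tlab N p.1 w) = (lo p w != hi p z w) := fun p z w =>
    bit_tlab N (fun l => (p.2 l).1) p.1 z w
  have e : (fun x => hs.all fun p => g p x) = f := by
    funext E
    rw [Bool.eq_iff_iff, List.all_eq_true]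
    constructor
    · intro h
      by_contra hE
      rw [Bool.not_eq_true] at hE
      obtain ⟨p, hp, hpE⟩ := hcover E (mem_filter.2 ⟨mem_univ _, hE⟩)
      have h1 := h p hp
      have h3 := trun_exact N.gates (lo p) (hi p E) _ (hδ p E) hpE N.out
      have h4 : run N.gates (hi p E) N.out = false := by
        have h4 : N.value (full (fun l => (p.2 l).1) p.1 E) = false := by
          rw [← Bool.not_eq_true, hN]
          rintro ⟨l, hl⟩
          rw [full_no f h0 _ _ (fun l => (p.2 l).2) E hE l] at hl
          exact absurd hl (by simp)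
        exact h4
      rw [hlo, h4] at h3
      have h5 : g p E = false := h3
      rw [h5] at h1
      exact absurd h1 (by simp)
    · intro h p _
      apply trun_upper N.gates (lo p) (hi p E)
      · intro w hw
        rw [hδ p E w]
        exact bne_iff_ne.2 hw
      · have h1 : N.value (full (fun l => (p.2 l).1) p.1 E) = true := by
          rw [hN]
          exact full_yes f _ _ _ h
        have h2 : run N.gates (hi p E) N.out = true := h1
        rw [hlo, h2]
        simp
  rw [e] at hall
  exact hall.mono le_rfl (Nat.add_le_add_right (Nat.mul_le_mul_right _ hlen) 1)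

end

end Pool.Agent.L5helper35.CT
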