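import Mathlib

/-!
# Reversible pebbling of a line
-/

namespace Pool.Agent.L5helper35.CT

open Finset

/-- The configurations which are reachable with at most `d` pebbles: pebble `i` may be added or
removed if `i = 0` or `i - 1` has a pebble. -/
inductive Peb (d : ℕ) : Finset ℕ → Prop
  | empty : Peb d ∅
  | step (S : Finset ℕ) (i : ℕ) : Peb d S → (i = 0 ∨ i - 1 ∈ S) → (symmDiff S {i}).card ≤ d →
      Peb d (symmDiff S {i})

theorem Peb.card_le {d : ℕ} {S : Finset ℕ} (h : Peb d S) : S.card ≤ d := by
  cases h with
  | empty => simp
  | step S i _ _ h => exact h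

theorem symmDiff_symmDiff_self {α : Type*} [DecidableEq α] (S T : Finset α) :
    symmDiff (symmDiff S T) T = S := by
  rw [symmDiff_assoc, symmDiff_self, symmDiff_bot]

theorem cond_symm {S : Finset ℕ} {i : ℕ} (h : i = 0 ∨ i - 1 ∈ S) :
    i = 0 ∨ i - 1 ∈ symmDiff S {i} := by
  by_cases hi : i = 0
  · exact Or.inl hi
  · right
    rcases h with h | h
    · exact absurd h hi
    · rw [mem_symmDiff, mem_singleton]
      left
      exact ⟨h, by omega⟩

/-- a step is reversible -/
theorem Peb.back {d : ℕ} {S : Finset ℕ} {i : ℕ} (h : Peb d (symmDiff S {i}))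
    (hi : i = 0 ∨ i - 1 ∈ S) (hS : S.card ≤ d) : Peb d S := by
  have h1 := Peb.step (symmDiff S {i}) i h (cond_symm hi) (by rwa [symmDiff_symmDiff_self])
  rwa [symmDiff_symmDiff_self] at h1

theorem filter_symmDiff_pos {S : Finset ℕ} {i : ℕ} {P : ℕ → Prop} [DecidablePred P] (h : P i) :
    (symmDiff S {i}).filter P = symmDiff (S.filter P) {i} := by
  ext j
  simp only [mem_filter, mem_symmDiff, mem_singleton]
  constructor
  · rintro ⟨h1, h2⟩
    rcases h1 with ⟨h3, h4⟩ | ⟨h3, h4⟩
    · exact Or.inl ⟨⟨h3, h2⟩, h4⟩
    · exact Or.inr ⟨h3, fun h5 => h4 h5.1⟩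
  · rintro (⟨⟨h3, h4⟩, h5⟩ | ⟨h3, h4⟩)
    · exact ⟨Or.inl ⟨h3, h5⟩, h4⟩
    · subst h3
      exact ⟨Or.inr ⟨rfl, fun h5 => h4 ⟨h5, h⟩⟩, h⟩

theorem filter_symmDiff_neg {S : Finset ℕ} {i : ℕ} {P : ℕ → Prop} [DecidablePred P] (h : ¬ P i) :
    (symmDiff S {i}).filter P = S.filter P := by
  ext j
  simp only [mem_filter, mem_symmDiff, mem_singleton]
  constructor
  · rintro ⟨h1, h2⟩
    rcases h1 with ⟨h3, h4⟩ | ⟨h3, h4⟩
    · exact ⟨h3, h2⟩
    · subst h3
      exact absurd h2 h
  · rintro ⟨h3, h4⟩
    refine ⟨Or.inl ⟨h3, ?_⟩, h4⟩
    rintro rfl
    exact h h4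

/-- the high part, shifted -/
def shift (K : ℕ) (S : Finset ℕ) : Finset ℕ := (S.filter fun i => K ≤ i).image fun i => i - K

theorem mem_shift (K : ℕ) (S : Finset ℕ) (j : ℕ) : j ∈ shift K S ↔ j + K ∈ S := by
  unfold shift
  rw [mem_image]
  constructor
  · rintro ⟨i, hi, rfl⟩
    rw [mem_filter] at hi
    rw [Nat.sub_add_cancel hi.2]
    exact hi.1
  · intro h
    exact ⟨j + K, mem_filter.2 ⟨h, by omega⟩, by omega⟩

theorem card_shift (K : ℕ) (S : Finset ℕ) : (shift K S).card = (S.filter fun i => K ≤ i).card := by
  unfold shift
  apply card_image_of_injOn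
  intro a ha b hb hab
  simp only [coe_filter, Set.mem_setOf_eq] at ha hb
  dsimp only at hab
  omega

theorem low_of_high {d : ℕ} (hA : ∀ S, Peb d S → ∀ i ∈ S, i + 1 < 2 ^ d) {S : Finset ℕ}
    (h : Peb (d + 1) S) : (∀ i ∈ S, i < 2 ^ d) ∨ ¬ Peb d (S.filter fun i => i < 2 ^ d) := by
  induction h with
  | empty => left; simp
  | step S i hS hi hc ih =>
    by_cases hiK : i < 2 ^ d
    · -- a move in the low part
      rcases ih with ih | ih
      · left
        intro j hj
        rw [mem_symmDiff, mem_singleton] at hj
        rcases hj with hj | hj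
        · exact ih j hj.1
        · rw [hj.1]; exact hiK
      · by_cases hH : ∀ j ∈ S, j < 2 ^ d
        · left
          intro j hj
          rw [mem_symmDiff, mem_singleton] at hj
          rcases hj with hj | hj
          · exact hH j hj.1
          · rw [hj.1]; exact hiK
        · right
          intro hP
          apply ih
          rw [filter_symmDiff_pos (P := fun i => i < 2 ^ d) hiK] at hP
          refine hP.back ?_ ?_
          · rcases hi with hi | hi
            · exact Or.inl hi
            · right
              rw [mem_filter]
              exact ⟨hi, by omega⟩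
          · have h1 := hS.card_le
            push Not at hH
            obtain ⟨j, hj, hjK⟩ := hH
            have h2 : (S.filter fun i => i < 2 ^ d).card < S.card := by
              apply card_lt_card
              rw [ssubset_iff_subset_ne]
              refine ⟨filter_subset _ _, fun he => ?_⟩
              rw [← he, mem_filter] at hj
              omega
            omega
    · -- a move in the high part
      rcases ih with ih | ih
      · right
        intro hP
        rw [filter_symmDiff_neg (P := fun i => i < 2 ^ d) hiK] at hP
        have h0 : 0 < 2 ^ d := Nat.pow_pos (by norm_num)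
        rcases hi with hi | hi
        · omega
        · have h1 := ih _ hi
          have h2 := hA _ hP (i - 1) (mem_filter.2 ⟨hi, h1⟩)
          omega
      · by_cases hH : ∀ j ∈ symmDiff S {i}, j < 2 ^ d
        · exact Or.inl hH
        · right
          rwa [filter_symmDiff_neg (P := fun i => i < 2 ^ d) hiK]

/-- **Reversible pebbling needs `log n` pebbles.** -/
theorem Peb.lt {d : ℕ} : ∀ {S : Finset ℕ}, Peb d S → ∀ i ∈ S, i + 1 < 2 ^ d := by
  induction d with
  | zero =>
    intro S h i hi
    have h1 := h.card_le
    rw [Nat.le_zero, card_eq_zero] at h1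
    rw [h1] at hi
    simp at hi
  | succ d ih =>
    have hA : ∀ S, Peb d S → ∀ i ∈ S, i + 1 < 2 ^ d := fun S h => ih h
    -- a nonempty configuration has a pebble in the low part
    have hB : ∀ S, Peb (d + 1) S → S ≠ ∅ → ∃ i ∈ S, i < 2 ^ d := by
      intro S h hne
      by_contra hcon
      push Not at hcon
      rcases low_of_high hA h with h1 | h1
      · obtain ⟨i, hi⟩ := nonempty_iff_ne_empty.2 hne
        have h2 := h1 i hi
        have h3 := hcon i hi
        omega
      · apply h1
        have : S.filter (fun i => i < 2 ^ d) = ∅ := by
          rw [filter_eq_empty_iff]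
          intro i hi
          have := hcon i hi
          omega
        rw [this]
        exact Peb.empty
    have hsh : ∀ S, Peb (d + 1) S → Peb d (shift (2 ^ d) S) := by
      intro S h
      induction h with
      | empty =>
        have : shift (2 ^ d) ∅ = ∅ := by
          ext j
          rw [mem_shift]
          simp
        rw [this]
        exact Peb.empty
      | step S i hS hi hc ihS =>
        have h' := Peb.step S i hS hi hc
        by_cases hiK : 2 ^ d ≤ i
        · have e : shift (2 ^ d) (symmDiff S {i}) = symmDiff (shift (2 ^ d) S) {i - 2 ^ d} := by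
            ext j
            rw [mem_shift, mem_symmDiff, mem_symmDiff, mem_shift, mem_singleton, mem_singleton]
            have : j + 2 ^ d = i ↔ j = i - 2 ^ d := by omega
            rw [this]
          rw [e]
          apply Peb.step _ _ ihS
          · by_cases h0 : i - 2 ^ d = 0
            · exact Or.inl h0
            · right
              rw [mem_shift]
              have h0' : 0 < 2 ^ d := Nat.pow_pos (by norm_num)
              rcases hi with hi | hi
              · omega
              · have : i - 2 ^ d - 1 + 2 ^ d = i - 1 := by omega
                rwa [this]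
          · rw [← e, card_shift]
            by_cases hne : symmDiff S {i} = ∅
            · rw [hne]
              simp
            · obtain ⟨j, hj, hjK⟩ := hB _ h' hne
              have h1 : ((symmDiff S {i}).filter fun i => 2 ^ d ≤ i).card <
                  (symmDiff S {i}).card := by
                apply card_lt_card
                rw [ssubset_iff_subset_ne]
                refine ⟨filter_subset _ _, fun he => ?_⟩
                rw [← he, mem_filter] at hj
                omega
              omega
        · have e : shift (2 ^ d) (symmDiff S {i}) = shift (2 ^ d) S := by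
            ext j
            rw [mem_shift, mem_symmDiff, mem_shift, mem_singleton]
            constructor
            · rintro (h | h)
              · exact h.1
              · omega
            · intro h
              exact Or.inl ⟨h, by omega⟩
          rw [e]
          exact ihS
    intro S h i hi
    rw [pow_succ]
    by_cases hiK : i < 2 ^ d
    · have h0 : 0 < 2 ^ d := Nat.pow_pos (by norm_num)
      omega
    · have h1 := hA _ (hsh S h) (i - 2 ^ d) (by
        rw [mem_shift]
        rwa [Nat.sub_add_cancel (by omega)])
      omega

end Pool.Agent.L5helper35.CT
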