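import Pool.Agent.L5helper12.CCXor
import Pool.Agent.L5helper35.CT.Pebble

/-!
# The matrix for reachability: pebble configurations of a line
-/

namespace Pool.Agent.L5helper35.CT

open Finset Pool.Agent.L5helper12.CC

/-- value of a bit -/
def bv (b : Bool) : ℝ := if b then 1 else 0

/-- a monomial -/
def mono {V : Type*} (s : Finset V) (y : V → Bool) : ℝ := ∏ v ∈ s, bv (y v)

theorem mono_zero {V : Type*} {s : Finset V} {y : V → Bool} {v : V} (hv : v ∈ s)
    (h : y v = false) : mono s y = 0 := by
  apply prod_eq_zero hv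
  rw [h]
  rfl

section

variable {m Q : ℕ}

/-- the configurations, as sets of layers -/
def PF (d : ℕ) (V : Finset (Fin m)) : Prop := Peb d (V.image Fin.val)

theorem PF.card_le {d : ℕ} {V : Finset (Fin m)} (h : PF d V) : V.card ≤ d := by
  have h1 := Peb.card_le h
  rwa [card_image_of_injective _ Fin.val_injective] at h1

theorem image_insert' (V : Finset (Fin m)) (k : Fin m) (hk : k ∉ V) :
    (insert k V).image Fin.val = symmDiff (V.image Fin.val) {k.val} := by
  ext j
  rw [mem_image, mem_symmDiff, mem_image, mem_singleton]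
  constructor
  · rintro ⟨i, hi, rfl⟩
    rcases mem_insert.1 hi with rfl | hi
    · right
      refine ⟨rfl, ?_⟩
      rintro ⟨i', hi', he⟩
      exact hk (Fin.ext he ▸ hi')
    · left
      refine ⟨⟨i, hi, rfl⟩, fun h => hk (Fin.ext h ▸ hi)⟩
  · rintro (⟨⟨i, hi, rfl⟩, -⟩ | ⟨rfl, -⟩)
    · exact ⟨i, mem_insert_of_mem hi, rfl⟩
    · exact ⟨k, mem_insert_self _ _, rfl⟩

/-- adding and removing the pebble `k` -/
theorem PF.insert_iff {d : ℕ} {V : Finset (Fin m)} {k : Fin m} (hk : k ∉ V)
    (h : k.val = 0 ∨ ∃ j ∈ V, j.val = k.val - 1) (hc : V.card + 1 ≤ d) :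
    PF d (insert k V) ↔ PF d V := by
  unfold PF
  rw [image_insert' V k hk]
  have hcond : k.val = 0 ∨ k.val - 1 ∈ V.image Fin.val := by
    rcases h with h | ⟨j, hj, hjk⟩
    · exact Or.inl h
    · right
      rw [← hjk]
      exact mem_image_of_mem _ hj
  constructor
  · intro h1
    refine h1.back hcond ?_
    rw [card_image_of_injective _ Fin.val_injective]
    omega
  · intro h1
    refine Peb.step _ _ h1 hcond ?_
    rw [← image_insert' V k hk, card_image_of_injective _ Fin.val_injective,
      card_insert_of_notMem hk]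
    exact hc

open Classical in
/-- the polynomial -/
noncomputable def pol (d : ℕ) (z : Fin m → Bool) : ℝ :=
  ∑ V : Finset (Fin m), if PF d V then (-1) ^ V.card * mono Vᶜ z else 0

/-- vanishing at the end of the line -/
theorem pol_end (d : ℕ) (z : Fin m → Bool) (k : Fin m) (hk : 2 ^ d ≤ k.val + 1)
    (hz : z k = false) : pol d z = 0 := by
  classical
  unfold pol
  apply sum_eq_zero
  intro V _
  split_ifs with h
  · rw [mono_zero (v := k) _ hz, mul_zero]
    rw [mem_compl]
    intro hkV
    have := Peb.lt h k.val (mem_image_of_mem _ hkV)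
    omega
  · rfl

open Classical in
/-- at a violation the polynomial has low degree -/
theorem pol_viol (d : ℕ) (z : Fin m → Bool) (k : Fin m) (hk : z k = true)
    (h : k.val = 0 ∨ ∃ j : Fin m, j.val = k.val - 1 ∧ z j = false) :
    pol d z = ∑ V ∈ (univ : Finset (Finset (Fin m))).filter (fun V => k ∉ V ∧ V.card = d),
      (if PF d V then (-1) ^ d else 0) * mono (insert k V)ᶜ z := by
  unfold pol
  -- split according to `k ∈ V`
  have h1 : ∑ V : Finset (Fin m), (if PF d V then (-1) ^ V.card * mono Vᶜ z else 0) =
      ∑ V ∈ (univ : Finset (Finset (Fin m))).filter (fun V => k ∉ V),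
        ((if PF d V then (-1) ^ V.card * mono Vᶜ z else 0) +
          (if PF d (insert k V) then (-1) ^ (insert k V).card * mono (insert k V)ᶜ z else 0)) := by
    rw [sum_add_distrib, ← sum_filter_add_sum_filter_not univ (fun V : Finset (Fin m) => k ∉ V)]
    congr 1
    symm
    apply sum_bij (fun V _ => insert k V)
    · intro V _
      rw [mem_filter]
      exact ⟨mem_univ _, fun h => h (mem_insert_self _ _)⟩
    · intro V hV V' hV' he
      rw [mem_filter] at hV hV'
      rw [← erase_insert hV.2, ← erase_insert hV'.2, he]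
    · intro V hV
      rw [mem_filter, not_not] at hV
      exact ⟨V.erase k, mem_filter.2 ⟨mem_univ _, notMem_erase _ _⟩, insert_erase hV.2⟩
    · intro V _
      rfl
  have hmono : ∀ V : Finset (Fin m), k ∉ V → mono Vᶜ z = mono (insert k V)ᶜ z := by
    intro V hV
    have e : Vᶜ = insert k (insert k V)ᶜ := by
      ext j
      rw [mem_insert, mem_compl, mem_compl, mem_insert]
      by_cases hj : j = k
      · subst hj
        simp [hV]
      · simp [hj]
    rw [e]
    unfold mono
    rw [prod_insert (by simp), hk]
    simp [bv]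
  rw [h1, ← filter_filter, sum_filter (fun V : Finset (Fin m) => V.card = d)]
  apply sum_congr rfl
  intro V hV
  have hkV : k ∉ V := (mem_filter.1 hV).2
  rw [hmono V hkV, card_insert_of_notMem hkV]
  by_cases hcond : k.val = 0 ∨ ∃ j ∈ V, j.val = k.val - 1
  · by_cases hc : V.card + 1 ≤ d
    · rw [if_neg (by omega : ¬ V.card = d)]
      by_cases hP : PF d V
      · rw [if_pos hP, if_pos ((PF.insert_iff hkV hcond hc).2 hP), pow_succ]
        ring
      · rw [if_neg hP, if_neg (fun h' => hP ((PF.insert_iff hkV hcond hc).1 h'))]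
        ring
    · have hI : ¬ PF d (insert k V) := by
        intro h'
        have := h'.card_le
        rw [card_insert_of_notMem hkV] at this
        omega
      rw [if_neg hI, add_zero]
      by_cases hd : V.card = d
      · rw [if_pos hd, hd]
        split_ifs <;> simp
      · rw [if_neg hd, if_neg]
        intro h'
        have := h'.card_le
        omega
  · -- the monomial vanishes
    push Not at hcond
    obtain ⟨h2, h3⟩ := hcond
    rcases h with h | ⟨j, hj, hzj⟩
    · exact absurd h h2
    · have hjV : j ∉ V := fun hjV => h3 j hjV hj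
      have hjk : j ≠ k := by
        intro he
        rw [he] at hj
        omega
      have h4 : mono (insert k V)ᶜ z = 0 := by
        apply mono_zero (v := j) _ hzj
        rw [mem_compl, mem_insert]
        rintro (h5 | h5)
        · exact hjk h5
        · exact hjV h5
      rw [h4]
      simp


/-- the matrix: rows are choices of one variable in each layer, columns are assignments -/
noncomputable def mat (d : ℕ) (x : Fin m → Fin Q) (y : Fin m × Fin Q → Bool) : ℝ :=
  pol d fun j => y (j, x j)

theorem mono_pts (x : Fin m → Fin Q) (y : Fin m × Fin Q → Bool) (T : Finset (Fin m)) :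
    mono T (fun j => y (j, x j)) = mono (pts x T) y := by
  unfold mono pts
  rw [prod_image]
  intro a _ b _ h
  exact (Prod.ext_iff.1 h).1

/-- the functions which span the rows at a violation -/
noncomputable def spanSet (m Q r : ℕ) : Finset ((Fin m × Fin Q → Bool) → ℝ) := by
  classical
  exact ((univ : Finset (Finset (Fin m))).filter fun T => T.card = r).biUnion fun T =>
    (univ : Finset (Fin m → Fin Q)).image fun x y => mono (pts x T) y

theorem card_spanSet (m Q r : ℕ) : (spanSet m Q r).card ≤ m.choose r * Q ^ r := by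
  classical
  unfold spanSet
  refine card_biUnion_le.trans ?_
  have h1 : ∀ T ∈ (univ : Finset (Finset (Fin m))).filter (fun T => T.card = r),
      ((univ : Finset (Fin m → Fin Q)).image fun x y => mono (pts x T) y).card ≤ Q ^ r := by
    intro T hT
    have h2 : ((univ : Finset (Fin m → Fin Q)).image fun x y => mono (pts x T) y) =
        (((univ : Finset (Fin m → Fin Q)).image fun x => pts x T).image fun s y => mono s y) := by
      rw [image_image]
      rfl
    rw [h2]
    refine card_image_le.trans ((card_image_pts _).trans ?_)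
    rw [(mem_filter.1 hT).2]
  refine (sum_le_card_nsmul _ _ _ h1).trans ?_
  rw [smul_eq_mul]
  apply Nat.mul_le_mul_right
  rw [← powerset_univ, ← powersetCard_eq_filter, card_powersetCard, card_univ, Fintype.card_fin]

/-- the rank at a violation -/
theorem mu_viol (d : ℕ) (hd : d + 1 ≤ m) (R : Set (Fin m → Fin Q))
    (C : Set (Fin m × Fin Q → Bool))
    (h : ∀ x ∈ R, (∃ k : Fin m, ∀ y ∈ C, y (k, x k) = true ∧
        (k.val = 0 ∨ ∃ j : Fin m, j.val = k.val - 1 ∧ y (j, x j) = false)) ∨
      ∃ k : Fin m, 2 ^ d ≤ k.val + 1 ∧ ∀ y ∈ C, y (k, x k) = false) :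
    mu (mat (Q := Q) (m := m) d) R C ≤ m.choose (d + 1) * Q ^ (m - (d + 1)) := by
  classical
  have h1 : mu (mat (Q := Q) (m := m) d) R C ≤ (spanSet m Q (m - (d + 1))).card := by
    apply mu_le
    intro x hx
    rcases h x hx with ⟨k, hk⟩ | ⟨k, hk, hk'⟩
    · refine ⟨fun y => ∑ V ∈ (univ : Finset (Finset (Fin m))).filter (fun V => k ∉ V ∧ V.card = d),
        (if PF d V then (-1) ^ d else 0) * mono (pts x (insert k V)ᶜ) y, ?_, ?_⟩
      · have h2 : (fun y => ∑ V ∈ (univ : Finset (Finset (Fin m))).filter
            (fun V => k ∉ V ∧ V.card = d),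
            (if PF d V then (-1) ^ d else 0) * mono (pts x (insert k V)ᶜ) y) =
            ∑ V ∈ (univ : Finset (Finset (Fin m))).filter (fun V => k ∉ V ∧ V.card = d),
            (if PF d V then (-1 : ℝ) ^ d else 0) •
              (fun y : Fin m × Fin Q → Bool => mono (pts x (insert k V)ᶜ) y) := by
          funext y
          rw [Finset.sum_apply]
          rfl
        rw [h2]
        apply Submodule.sum_mem
        intro V hV
        rw [mem_filter] at hV
        apply Submodule.smul_mem
        apply Submodule.subset_span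
        rw [mem_coe]
        unfold spanSet
        rw [mem_biUnion]
        refine ⟨(insert k V)ᶜ, mem_filter.2 ⟨mem_univ _, ?_⟩, mem_image.2 ⟨x, mem_univ _, rfl⟩⟩
        rw [card_compl, Fintype.card_fin, card_insert_of_notMem hV.2.1, hV.2.2]
      · intro y hy
        unfold mat
        rw [pol_viol d _ k (hk y hy).1 (hk y hy).2]
        apply sum_congr rfl
        intro V _
        rw [mono_pts]
    · refine ⟨0, Submodule.zero_mem _, ?_⟩
      intro y hy
      exact pol_end d _ k hk (hk' y hy)
  have h2 := card_spanSet m Q (m - (d + 1))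
  rw [Nat.choose_symm hd] at h2
  calc mu (mat (Q := Q) (m := m) d) R C ≤ ((spanSet m Q (m - (d + 1))).card : ℤ) := h1
    _ ≤ ((m.choose (d + 1) * Q ^ (m - (d + 1)) : ℕ) : ℤ) := by exact_mod_cast h2
    _ = _ := by push_cast; ring

/-- the point of the row `x'` -/
def ypt (x' : Fin m → Fin Q) (z : Fin m → Bool) (p : Fin m × Fin Q) : Bool :=
  decide (p.2 = x' p.1) && z p.1

/-- a signed sum over the points of the row `x'` -/
theorem lam_mono (x x' : Fin m → Fin Q) (T : Finset (Fin m)) :
    ∑ z : Fin m → Bool, (∏ j, (if z j then (1 : ℝ) else -1)) * mono (pts x T) (ypt x' z) =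
      if T = univ ∧ x = x' then 1 else 0 := by
  classical
  have h1 : ∀ z : Fin m → Bool, (∏ j, (if z j then (1 : ℝ) else -1)) *
      mono (pts x T) (ypt x' z) = ∏ j, ((if z j then (1 : ℝ) else -1) *
        (if j ∈ T then bv (decide (x j = x' j) && z j) else 1)) := by
    intro z
    rw [← mono_pts, prod_mul_distrib]
    congr 1
    unfold mono
    rw [Finset.prod_ite_mem univ T]
    simp [ypt]
  simp only [h1]
  have h2 : ∑ z : Fin m → Bool, ∏ j, ((if z j then (1 : ℝ) else -1) *
      (if j ∈ T then bv (decide (x j = x' j) && z j) else 1)) =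
      ∏ j : Fin m, ∑ b : Bool, ((if b then (1 : ℝ) else -1) *
      (if j ∈ T then bv (decide (x j = x' j) && b) else 1)) := by
    rw [Finset.prod_univ_sum, Fintype.piFinset_univ]
  rw [h2]
  have h3 : ∀ j : Fin m, ∑ b : Bool, ((if b then (1 : ℝ) else -1) *
      (if j ∈ T then bv (decide (x j = x' j) && b) else 1)) =
      if j ∈ T ∧ x j = x' j then 1 else 0 := by
    intro j
    rw [Fintype.sum_bool]
    by_cases hj : j ∈ T
    · by_cases hx : x j = x' j
      · simp [hj, hx, bv]
      · simp [hj, hx, bv]
    · simp [hj]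
  simp only [h3]
  by_cases hc : T = univ ∧ x = x'
  · obtain ⟨rfl, rfl⟩ := hc
    simp
  · rw [if_neg hc]
    have h4 : ∃ j : Fin m, ¬ (j ∈ T ∧ x j = x' j) := by
      by_contra hcon
      push Not at hcon
      exact hc ⟨eq_univ_iff_forall.2 fun j => (hcon j).1, funext fun j => (hcon j).2⟩
    obtain ⟨j, hj⟩ := h4
    apply prod_eq_zero (mem_univ j)
    rw [if_neg hj]

theorem lam_mat (d : ℕ) (x x' : Fin m → Fin Q) :
    ∑ z : Fin m → Bool, (∏ j, (if z j then (1 : ℝ) else -1)) * mat d x (ypt x' z) =
      if x = x' then 1 else 0 := by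
  classical
  unfold mat pol
  simp only [mul_sum]
  rw [sum_comm]
  have h1 : ∀ V : Finset (Fin m), ∑ z : Fin m → Bool, (∏ j, (if z j then (1 : ℝ) else -1)) *
      (if PF d V then (-1) ^ V.card * mono Vᶜ (fun j => ypt x' z (j, x j)) else 0) =
      if V = ∅ then (if x = x' then 1 else 0) else 0 := by
    intro V
    by_cases hP : PF d V
    · simp only [if_pos hP]
      have h2 : ∀ z : Fin m → Bool, (∏ j, (if z j then (1 : ℝ) else -1)) *
          ((-1) ^ V.card * mono Vᶜ (fun j => ypt x' z (j, x j))) = (-1) ^ V.card *
          ((∏ j, (if z j then (1 : ℝ) else -1)) * mono (pts x Vᶜ) (ypt x' z)) := by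
        intro z
        rw [← mono_pts]
        ring
      simp only [h2]
      rw [← mul_sum, lam_mono]
      by_cases hV : V = ∅
      · subst hV
        simp
      · rw [if_neg hV, if_neg, mul_zero]
        rintro ⟨h3, -⟩
        apply hV
        rwa [compl_eq_univ_iff] at h3
    · have hV : V ≠ ∅ := by
        rintro rfl
        apply hP
        unfold PF
        rw [image_empty]
        exact Peb.empty
      simp [if_neg hP, hV]
  simp only [h1]
  simp

theorem rank_full (d : ℕ) :
    Module.finrank ℝ (W (mat (m := m) (Q := Q) d) Set.univ) = Q ^ m := by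
  have h1 : LinearIndependent ℝ (mat (m := m) (Q := Q) d) := by
    rw [Fintype.linearIndependent_iff]
    intro a ha x'
    have h2 : ∑ z : Fin m → Bool, (∏ j, (if z j then (1 : ℝ) else -1)) *
        (∑ x, a x * mat d x (ypt x' z)) = 0 := by
      apply sum_eq_zero
      intro z _
      have := congrFun ha (ypt x' z)
      simp only [Finset.sum_apply, Pi.smul_apply, smul_eq_mul, Pi.zero_apply] at this
      rw [this, mul_zero]
    have h3 : ∑ z : Fin m → Bool, (∏ j, (if z j then (1 : ℝ) else -1)) *
        (∑ x, a x * mat d x (ypt x' z)) = ∑ x, a x * (if x = x' then 1 else 0) := by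
      simp only [mul_sum]
      rw [sum_comm]
      apply sum_congr rfl
      intro x _
      rw [← lam_mat d x x', mul_sum]
      apply sum_congr rfl
      intro z _
      ring
    rw [h3] at h2
    simpa using h2
  unfold W
  rw [Set.image_univ, finrank_span_eq_card h1]
  simp

end

end Pool.Agent.L5helper35.CT
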