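import Pool.Agent.L5helper35.CN.Xor
import Pool.Agent.L5helper35.CT.Gen
import Pool.Agent.L5helper35.CT.Rank

/-!
# Reachability needs large comparator circuits without NOT gates
-/

namespace Pool.Agent.L5helper35.CT

open Finset Pool.Agent.L5helper12.CC Pool.Agent.L5helper35.CN

open Classical in
/-- there is a directed path from `s` to `t` in the graph with the arcs `E` -/
noncomputable def conn {V : Type} (s t : V) (E : V × V → Bool) : Bool :=
  decide (Relation.ReflTransGen (fun a b => E (a, b) = true) s t)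

theorem conn_iff {V : Type} (s t : V) (E : V × V → Bool) :
    conn s t E = true ↔ Relation.ReflTransGen (fun a b => E (a, b) = true) s t := by
  classical
  unfold conn
  rw [decide_eq_true_eq]

theorem conn_mono {V : Type} (s t : V) : Mono (conn s t) := by
  intro E E' h hE
  rw [conn_iff] at hE ⊢
  exact Relation.ReflTransGen.mono (fun a b hab => h (a, b) hab) s t hE

section

variable {V : Type} {m Q : ℕ} (s t : V) (φ : Fin m × Fin Q → V)

/-- the arcs of the path of `x`, from `s` through the layers `m - 1`, ..., `0` to `t` -/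
def Arc (x : Fin m → Fin Q) (a b : V) : Prop :=
  (∃ k : Fin m, k.val + 1 = m ∧ a = s ∧ b = φ (k, x k)) ∨
  (∃ k j : Fin m, j.val + 1 = k.val ∧ a = φ (k, x k) ∧ b = φ (j, x j)) ∨
  ∃ k : Fin m, k.val = 0 ∧ a = φ (k, x k) ∧ b = t

open Classical in
/-- the path of `x` -/
noncomputable def gu (x : Fin m → Fin Q) (e : V × V) : Bool := decide (Arc s t φ x e.1 e.2)

open Classical in
/-- the side of `s` -/
noncomputable def side (y : Fin m × Fin Q → Bool) (a : V) : Bool :=
  decide (a = s ∨ ∃ p, a = φ p ∧ y p = true)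

/-- the graph of `y`: all arcs except those from the side of `s` to the side of `t` -/
noncomputable def gv (y : Fin m × Fin Q → Bool) (e : V × V) : Bool :=
  !(side s φ y e.1 && !side s φ y e.2)

theorem gu_conn (hm : 0 < m) (x : Fin m → Fin Q) : conn s t (gu s t φ x) = true := by
  classical
  rw [conn_iff]
  have h1 : ∀ k : ℕ, ∀ hk : k < m, Relation.ReflTransGen
      (fun a b => gu s t φ x (a, b) = true) (φ (⟨k, hk⟩, x ⟨k, hk⟩)) t := by
    intro k
    induction k with
    | zero =>
      intro hk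
      apply Relation.ReflTransGen.single
      unfold gu
      rw [decide_eq_true_eq]
      exact Or.inr (Or.inr ⟨⟨0, hk⟩, rfl, rfl, rfl⟩)
    | succ k ih =>
      intro hk
      refine Relation.ReflTransGen.head ?_ (ih (by omega))
      unfold gu
      rw [decide_eq_true_eq]
      exact Or.inr (Or.inl ⟨⟨k + 1, hk⟩, ⟨k, by omega⟩, rfl, rfl, rfl⟩)
  refine Relation.ReflTransGen.head ?_ (h1 (m - 1) (by omega))
  unfold gu
  rw [decide_eq_true_eq]
  exact Or.inl ⟨⟨m - 1, by omega⟩, by simp only; omega, rfl, rfl⟩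

theorem gv_conn (hst : s ≠ t) (hφt : ∀ p, φ p ≠ t) (y : Fin m × Fin Q → Bool) :
    conn s t (gv s φ y) = false := by
  classical
  rw [← Bool.not_eq_true, conn_iff]
  intro h
  have h0 : ∀ b, Relation.ReflTransGen (fun a b => gv s φ y (a, b) = true) s b →
      side s φ y b = true := by
    intro b hb
    induction hb with
    | refl => unfold side; simp
    | tail _ hab ih =>
      unfold gv at hab
      rw [ih] at hab
      simpa using hab
  have h1 := h0 t h
  unfold side at h1
  rw [decide_eq_true_eq] at h1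
  rcases h1 with h1 | ⟨p, h1, -⟩
  · exact hst h1.symm
  · exact hφt p h1.symm

theorem side_phi (hφ : Function.Injective φ) (hφs : ∀ p, φ p ≠ s) (y : Fin m × Fin Q → Bool)
    (p : Fin m × Fin Q) : side s φ y (φ p) = y p := by
  classical
  unfold side
  rw [Bool.eq_iff_iff, decide_eq_true_eq]
  constructor
  · rintro (h | ⟨q, h, hq⟩)
    · exact absurd h (hφs p)
    · rwa [hφ h]
  · intro h
    exact Or.inr ⟨p, rfl, h⟩

theorem side_t (hst : s ≠ t) (hφt : ∀ p, φ p ≠ t) (y : Fin m × Fin Q → Bool) :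
    side s φ y t = false := by
  classical
  unfold side
  rw [decide_eq_false_iff_not]
  rintro (h | ⟨q, h, -⟩)
  · exact hst h.symm
  · exact hφt q h.symm

/-- the lower bound for the number of wires -/
theorem wires_ge (hst : s ≠ t) (hφ : Function.Injective φ) (hφs : ∀ p, φ p ≠ s)
    (hφt : ∀ p, φ p ≠ t) (d : ℕ) (hd : d + 1 ≤ m) (hdm : 2 ^ d ≤ m)
    (N : Pool.Agent.L5helper12.CC.Circuit (V × V))
    (hN : ∀ w, (∃ a, ∀ E, N.label w E = E a) ∨ ∃ b, ∀ E, N.label w E = b)
    (hval : ∀ E, N.value E = conn s t E) :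
    Q ^ m ≤ N.wires * (m.choose (d + 1) * Q ^ (m - (d + 1))) := by
  classical
  have h1 : ∀ x : Fin m → Fin Q, N.value (gu s t φ x) = true := fun x => by
    rw [hval]; exact gu_conn s t φ (by omega) x
  have h2 : ∀ y : Fin m × Fin Q → Bool, N.value (gv s φ y) = false := fun y => by
    rw [hval]; exact gv_conn s t φ hst hφt y
  have h3 := rank_le (mat (m := m) (Q := Q) d) (gu s t φ) (gv s φ) N
    (m.choose (d + 1) * Q ^ (m - (d + 1))) h1 h2 ?_
  · rw [rank_full] at h3
    exact_mod_cast h3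
  intro w
  have hpos : (0 : ℤ) ≤ m.choose (d + 1) * Q ^ (m - (d + 1)) := by positivity
  rcases hN w with ⟨a, ha⟩ | ⟨b, hb⟩
  · unfold mf
    apply mu_viol d hd
    intro x hx
    simp only [Set.mem_ofPred_eq, ha, gu, decide_eq_true_eq] at hx
    have hy' : ∀ y ∈ {y | N.label w (gv s φ y) = false}, side s φ y a.1 = true ∧
        side s φ y a.2 = false := by
      intro y hy
      simp only [Set.mem_ofPred_eq, ha, gv] at hy
      simpa using hy
    rcases hx with ⟨k, hk, hs, hb⟩ | ⟨k, j, hkj, hs, hb⟩ | ⟨k, hk, hs, hb⟩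
    · right
      refine ⟨k, by omega, fun y hy => ?_⟩
      have := (hy' y hy).2
      rwa [hb, side_phi s φ hφ hφs] at this
    · left
      refine ⟨k, fun y hy => ?_⟩
      have := hy' y hy
      rw [hs, hb, side_phi s φ hφ hφs, side_phi s φ hφ hφs] at this
      exact ⟨this.1, Or.inr ⟨j, by omega, this.2⟩⟩
    · left
      refine ⟨k, fun y hy => ?_⟩
      have := (hy' y hy).1
      rw [hs, side_phi s φ hφ hφs] at this
      exact ⟨this, Or.inl hk⟩
  · exact (mf_const _ _ _ _ b (fun x => hb _) (fun y => hb _)).le.trans hpos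

end

/-- **Reachability needs `n ^ (log n / 8)` wires without NOT gates.** -/
theorem conn_lower {V : Type} [Fintype V] (s t : V) (hst : s ≠ t) (d : ℕ)
    (hV : 16 ^ d + 2 ≤ Fintype.card V) (S : ℕ) (h : Cmp 0 S (conn s t)) :
    4 ^ (d * (d + 1)) ≤ S := by
  classical
  obtain ⟨N, h1, h2, h3⟩ := h
  -- an embedding of the layers
  obtain ⟨φ, hφ, hφs, hφt⟩ : ∃ φ : Fin (2 ^ d) × Fin (8 ^ d) → V, Function.Injective φ ∧
      (∀ p, φ p ≠ s) ∧ ∀ p, φ p ≠ t := by
    have hc : Fintype.card (Fin (2 ^ d) × Fin (8 ^ d)) ≤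
        Fintype.card {v : V // v ∉ ({s, t} : Finset V)} := by
      rw [Fintype.card_prod, Fintype.card_fin, Fintype.card_fin, ← mul_pow,
        Fintype.card_subtype_compl, Fintype.card_coe]
      have : ({s, t} : Finset V).card ≤ 2 := card_le_two
      norm_num
      omega
    obtain ⟨ψ⟩ := Function.Embedding.nonempty_of_card_le hc
    refine ⟨fun p => (ψ p).1, Subtype.val_injective.comp ψ.injective, fun p hp => ?_, fun p hp => ?_⟩
    · apply (ψ p).2
      dsimp only at hp
      rw [hp]
      simp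
    · apply (ψ p).2
      dsimp only at hp
      rw [hp]
      simp
  have h4 := wires_ge s t φ hst hφ hφs hφt d (Nat.lt_two_pow_self) le_rfl
    ⟨N.wires, fun w E => bit E (N.label w), pairs N.gates, N.out⟩ ?_ ?_
  · dsimp only at h4
    have hd : d + 1 ≤ 2 ^ d := Nat.lt_two_pow_self
    have h5 : (2 ^ d).choose (d + 1) ≤ (2 ^ d) ^ (d + 1) := Nat.choose_le_pow _ _
    have h6 : (8 ^ d) ^ (2 ^ d) = (8 ^ d) ^ (d + 1) * (8 ^ d) ^ (2 ^ d - (d + 1)) := by
      rw [← pow_add]
      congr 1
      omega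
    have h7 : 0 < (8 ^ d) ^ (2 ^ d - (d + 1)) := by positivity
    have h8 : (8 ^ d) ^ (d + 1) ≤ N.wires * (2 ^ d) ^ (d + 1) := by
      apply Nat.le_of_mul_le_mul_right _ h7
      calc (8 ^ d) ^ (d + 1) * (8 ^ d) ^ (2 ^ d - (d + 1)) = (8 ^ d) ^ (2 ^ d) := h6.symm
        _ ≤ N.wires * ((2 ^ d).choose (d + 1) * (8 ^ d) ^ (2 ^ d - (d + 1))) := h4
        _ ≤ N.wires * ((2 ^ d) ^ (d + 1) * (8 ^ d) ^ (2 ^ d - (d + 1))) :=
          Nat.mul_le_mul_left _ (Nat.mul_le_mul_right _ h5)
        _ = _ := by ring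
    have h9 : (8 ^ d) ^ (d + 1) = 4 ^ (d * (d + 1)) * (2 ^ d) ^ (d + 1) := by
      rw [← pow_mul, ← pow_mul, ← mul_pow]
      norm_num
    rw [h9] at h8
    exact (Nat.le_of_mul_le_mul_right h8 (by positivity)).trans h2
  · intro w
    dsimp only
    cases N.label w with
    | inl e => exact Or.inl ⟨e, fun E => rfl⟩
    | inr b => exact Or.inr ⟨b, fun _ => rfl⟩
  · intro E
    rw [← h3 E]
    unfold Pool.Agent.L5helper12.CC.Circuit.value CN.Circuit.value
    dsimp only
    rw [foldl_pairs N.gates (by omega)]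

end Pool.Agent.L5helper35.CT
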