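import Pool.Agent.L5helper35.CN.Cor
import Pool.Agent.L5helper35.CT.Gen

/-!
# At polynomial size almost as many NOT gates as input bits are needed
-/

namespace Pool.Agent.L5helper35.CT

open Finset Filter Pool.Agent.L5helper12.CC Pool.Agent.L5helper35.CN

/-- **Few NOT gates do not help.** -/
theorem few_negations : ∃ C : ℝ, 0 < C ∧ ∀ (n L : ℕ) (N : CN.Circuit (Fin L × Eqn n)),
    ComputesOr (unsat n) N → negs N.gates < L →
      (n : ℝ) ≤ C * (1 + Real.log (N.wires * L)) := by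
  obtain ⟨C, hC, h⟩ := lower_cmp
  obtain ⟨C', hC', h'⟩ := numeric C hC
  refine ⟨C', hC', fun n L N hN ht => ?_⟩
  have hf := (no_help (unsat n) (unsat_mono n) N hN ht).mono (S' := L * (Fintype.card (Eqn n) + 1) *
    (N.wires + negs N.gates) + 1) le_rfl (by
      apply Nat.add_le_add_right
      exact Nat.mul_le_mul_left _ (Nat.le_add_right _ _))
  have hS : 1 ≤ N.wires := by
    have := N.out.isLt
    omega
  rw [card_eqn] at hf
  exact h' n L N.wires (negs N.gates) hS ht (h n _ (unsat n) hf fun E => by simp [unsat])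

/-- **At polynomial size almost as many NOT gates as input bits are needed.** -/
theorem poly_size (a : ℕ) (ε : ℝ) (hε : 0 < ε) : ∃ L0 : ℕ, ∀ L ≥ L0,
    ∀ N : CN.Circuit (Fin L × Eqn (Nat.log 2 L ^ 2)), ComputesOr (unsat (Nat.log 2 L ^ 2)) N →
      (N.wires : ℝ) ≤ (Fintype.card (Fin L × Eqn (Nat.log 2 L ^ 2)) : ℝ) ^ a →
      (Fintype.card (Fin L × Eqn (Nat.log 2 L ^ 2)) : ℝ) ^ (1 - ε) ≤
        (negs N.gates : ℝ) := by
  obtain ⟨C, hC, h⟩ := few_negations
  set δ : ℝ := min ε (1 / 2) with hδ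
  have hδ0 : 0 < δ := lt_min hε (by norm_num)
  have hδ4 : δ ≤ 1 / 2 := min_le_right _ _
  have hδε : δ ≤ ε := min_le_left _ _
  have hev := ((ev_log δ hδ0).and ((ev_quad C a).and (eventually_ge_atTop 4)))
  rw [eventually_atTop] at hev
  obtain ⟨L0, hL0⟩ := hev
  refine ⟨L0, fun L hL => ?_⟩
  obtain ⟨h1, h2, h3⟩ := hL0 L hL
  have hℓ2 : 2 ≤ Nat.log 2 L :=
    (Nat.le_log_iff_pow_le (by norm_num) (by omega)).2 (by simpa using h3)
  have hℓL' : Nat.log 2 L ≤ L := Nat.log_le_self 2 L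
  have hℓL2 : L < 2 ^ (Nat.log 2 L + 1) := Nat.lt_pow_succ_log_self (b := 2) (by norm_num) L
  generalize Nat.log 2 L = ℓ at h1 h2 hℓ2 hℓL' hℓL2 ⊢
  intro N hN hS
  obtain ⟨M, hM⟩ : ∃ M, M = Fintype.card (Fin L × Eqn (ℓ ^ 2)) := ⟨_, rfl⟩
  rw [← hM] at hS ⊢
  have hMle : M ≤ L * ℓ ^ 6 := by
    rw [hM, card_bits]
    apply Nat.mul_le_mul_left
    calc (ℓ ^ 2).choose 3 * 2 ≤ (ℓ ^ 2) ^ 3 := choose_le_cube _
      _ = ℓ ^ 6 := by ring
  have hM1 : 1 ≤ M := by
    rw [hM, card_bits]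
    apply Nat.mul_pos (by omega)
    apply Nat.mul_pos _ (by norm_num)
    apply Nat.choose_pos
    calc 3 ≤ 2 ^ 2 := by norm_num
      _ ≤ ℓ ^ 2 := Nat.pow_le_pow_left hℓ2 2
  have hM1' : (1 : ℝ) ≤ M := by exact_mod_cast hM1
  have hLp : (1 : ℝ) ≤ L := by
    have : 1 ≤ L := by omega
    exact_mod_cast this
  have hMR : (M : ℝ) ≤ L * (ℓ : ℝ) ^ 6 := by exact_mod_cast hMle
  refine le_trans (Real.rpow_le_rpow_of_exponent_le hM1' (show 1 - ε ≤ 1 - δ by linarith)) ?_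
  by_contra hcon
  push Not at hcon
  have h4 : (negs N.gates : ℝ) < L := by
    calc (negs N.gates : ℝ) < (M : ℝ) ^ (1 - δ) := hcon
      _ ≤ (L * (ℓ : ℝ) ^ 6) ^ (1 - δ) :=
          Real.rpow_le_rpow (by linarith) hMR (by linarith)
      _ ≤ (L * (L : ℝ) ^ δ) ^ (1 - δ) := by
          apply Real.rpow_le_rpow (by positivity) _ (by linarith)
          exact mul_le_mul_of_nonneg_left h1 (by linarith)
      _ = (L : ℝ) ^ ((1 + δ) * (1 - δ)) := by
          have : (L : ℝ) * (L : ℝ) ^ δ = (L : ℝ) ^ (1 + δ) := by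
            rw [Real.rpow_add (by linarith), Real.rpow_one]
          rw [this, ← Real.rpow_mul (by linarith)]
      _ ≤ (L : ℝ) ^ (1 : ℝ) := by
          apply Real.rpow_le_rpow_of_exponent_le hLp
          nlinarith
      _ = L := Real.rpow_one _
  have h5 : negs N.gates < L := by exact_mod_cast h4
  have h6 := h (ℓ ^ 2) L N hN h5
  have hS1 : (1 : ℝ) ≤ N.wires := by
    have : 1 ≤ N.wires := by
      have := N.out.isLt
      omega
    exact_mod_cast this
  have hlogL : Real.log L ≤ (ℓ : ℝ) + 1 := by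
    have h7 : (L : ℝ) ≤ 2 ^ (ℓ + 1) := by
      exact_mod_cast hℓL2.le
    have h8 := Real.log_le_log (by linarith) h7
    rw [Real.log_pow] at h8
    have h9 : Real.log 2 ≤ 1 := by
      have := Real.log_two_lt_d9
      linarith
    have h10 : (0 : ℝ) ≤ ((ℓ + 1 : ℕ) : ℝ) := Nat.cast_nonneg _
    have h11 : ((ℓ + 1 : ℕ) : ℝ) * Real.log 2 ≤ ((ℓ + 1 : ℕ) : ℝ) := by nlinarith
    push_cast at h8 h11
    linarith
  have hlogL0 : 0 ≤ Real.log L := Real.log_nonneg hLp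
  have hlogM : Real.log M ≤ 7 * Real.log L := by
    have hℓL : (ℓ : ℝ) ≤ L := by exact_mod_cast hℓL'
    have h7 : (M : ℝ) ≤ (L : ℝ) ^ 7 := by
      calc (M : ℝ) ≤ L * (ℓ : ℝ) ^ 6 := hMR
        _ ≤ L * (L : ℝ) ^ 6 := by
            apply mul_le_mul_of_nonneg_left _ (by linarith)
            exact pow_le_pow_left₀ (Nat.cast_nonneg _) hℓL 6
        _ = (L : ℝ) ^ 7 := by ring
    have h8 := Real.log_le_log (by linarith) h7
    rw [Real.log_pow] at h8
    exact_mod_cast h8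
  have hlogS : Real.log N.wires ≤ a * (7 * Real.log L) := by
    have h7 := Real.log_le_log (by linarith) hS
    rw [Real.log_pow] at h7
    have ha : (0 : ℝ) ≤ a := Nat.cast_nonneg _
    exact h7.trans (mul_le_mul_of_nonneg_left hlogM ha)
  have h7 : Real.log (N.wires * L) ≤ (7 * a + 1) * ((ℓ : ℝ) + 1) := by
    rw [Real.log_mul (by linarith) (by linarith)]
    have ha : (0 : ℝ) ≤ a := Nat.cast_nonneg _
    have h8 : (a : ℝ) * (7 * Real.log L) ≤ a * (7 * ((ℓ : ℝ) + 1)) := by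
      apply mul_le_mul_of_nonneg_left _ ha
      linarith
    nlinarith
  have h8 : C * (1 + Real.log (N.wires * L)) ≤ C * (1 + (7 * a + 1) * ((ℓ : ℝ) + 1)) := by
    apply mul_le_mul_of_nonneg_left _ hC.le
    linarith
  have h9 : ((ℓ ^ 2 : ℕ) : ℝ) = (ℓ : ℝ) ^ 2 := by push_cast; rfl
  rw [h9] at h6
  linarith


end Pool.Agent.L5helper35.CT
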