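import Pool.Agent.L5helper35.CT.Reach

/-!
# Reachability in one graph
-/

namespace Pool.Agent.L5helper35.CT

open Finset Pool.Agent.L5helper35.CN

/-- other labels -/
def relabel {I J : Type} (lab : J → I ⊕ Bool) (N : Circuit J) : Circuit I :=
  ⟨N.wires, fun w => match N.label w with
    | .inl j => lab j
    | .inr b => .inr b, N.gates, N.out⟩

theorem relabel_value {I J : Type} (lab : J → I ⊕ Bool) (N : Circuit J) (x : I → Bool) :
    (relabel lab N).value x = N.value fun j => bit x (lab j) := by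
  unfold Circuit.value
  change run N.gates (fun w => bit x ((relabel lab N).label w)) N.out = _
  congr 1
  funext w
  simp only [relabel]
  cases N.label w <;> rfl

section

variable {V V0 : Type} {L : ℕ} (s t : V) (s0 t0 : V0) (φ : Fin L × V0 → V)

open Classical in
/-- `L` graphs in one graph -/
noncomputable def emb (e : V × V) : (Fin L × (V0 × V0)) ⊕ Bool :=
  if h : ∃ (l : Fin L) (a b : V0), e.1 = φ (l, a) ∧ e.2 = φ (l, b) then
    .inl (h.choose, (h.choose_spec.choose, h.choose_spec.choose_spec.choose))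
  else if (e.1 = s ∧ ∃ l : Fin L, e.2 = φ (l, s0)) ∨ (e.2 = t ∧ ∃ l : Fin L, e.1 = φ (l, t0)) then
    .inr true
  else .inr false

theorem emb_iff (hφ : Function.Injective φ) (hφs : ∀ p, φ p ≠ s) (hφt : ∀ p, φ p ≠ t)
    (E : Fin L × (V0 × V0) → Bool) (u v : V) : bit E (emb s t s0 t0 φ (u, v)) = true ↔
      (∃ (l : Fin L) (a b : V0), u = φ (l, a) ∧ v = φ (l, b) ∧ E (l, (a, b)) = true) ∨
      (u = s ∧ ∃ l : Fin L, v = φ (l, s0)) ∨ (v = t ∧ ∃ l : Fin L, u = φ (l, t0)) := by
  classical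
  by_cases h : ∃ (l : Fin L) (a b : V0), u = φ (l, a) ∧ v = φ (l, b)
  · obtain ⟨l, a, b, h1, h2⟩ : ∃ (l : Fin L) (a b : V0), (u = φ (l, a) ∧ v = φ (l, b)) ∧
        emb s t s0 t0 φ (u, v) = .inl (l, (a, b)) :=
      ⟨h.choose, h.choose_spec.choose, h.choose_spec.choose_spec.choose,
        h.choose_spec.choose_spec.choose_spec, by unfold emb; exact dif_pos h⟩
    rw [h2]
    change E (l, (a, b)) = true ↔ _
    constructor
    · intro hE
      exact Or.inl ⟨l, a, b, h1.1, h1.2, hE⟩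
    · rintro (⟨l', a', b', h2, h3, h4⟩ | ⟨h2, -⟩ | ⟨h2, -⟩)
      · have e1 := hφ (h1.1.symm.trans h2)
        have e2 := hφ (h1.2.symm.trans h3)
        rw [Prod.mk.injEq] at e1 e2
        rw [e1.1, e1.2, e2.2]
        exact h4
      · exact absurd (h1.1.symm.trans h2) (hφs _)
      · exact absurd (h1.2.symm.trans h2) (hφt _)
  · unfold emb
    rw [dif_neg h]
    constructor
    · intro h2
      split_ifs at h2 with h3
      · exact Or.inr h3
      · simp [bit] at h2
    · rintro (⟨l', a', b', h2, h3, -⟩ | h2)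
      · exact absurd ⟨l', a', b', h2, h3⟩ h
      · rw [if_pos h2]
        rfl

theorem emb_conn (hst : s ≠ t) (hφ : Function.Injective φ) (hφs : ∀ p, φ p ≠ s)
    (hφt : ∀ p, φ p ≠ t) (E : Fin L × (V0 × V0) → Bool) :
    conn s t (fun e => bit E (emb s t s0 t0 φ e)) = true ↔
      ∃ l, conn s0 t0 (fun e => E (l, e)) = true := by
  simp only [conn_iff]
  constructor
  · intro h
    have key : ∀ v, Relation.ReflTransGen (fun a b => bit E (emb s t s0 t0 φ (a, b)) = true) s v →
        v = s ∨ (∃ (l : Fin L) (a : V0), v = φ (l, a) ∧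
          Relation.ReflTransGen (fun a b => E (l, (a, b)) = true) s0 a) ∨
        (v = t ∧ ∃ l : Fin L, Relation.ReflTransGen (fun a b => E (l, (a, b)) = true) s0 t0) := by
      intro v hv
      induction hv with
      | refl => exact Or.inl rfl
      | tail _ hab ih =>
        rw [emb_iff s t s0 t0 φ hφ hφs hφt] at hab
        rcases ih with rfl | ⟨l, a, rfl, hl⟩ | ⟨rfl, hl⟩
        · rcases hab with ⟨l', a', b', h2, -, -⟩ | ⟨-, l', h2⟩ | ⟨-, l', h2⟩
          · exact absurd h2.symm (hφs _)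
          · exact Or.inr (Or.inl ⟨l', s0, h2, Relation.ReflTransGen.refl⟩)
          · exact absurd h2.symm (hφs _)
        · rcases hab with ⟨l', a', b', h2, h3, h4⟩ | ⟨h2, -⟩ | ⟨h3, l', h2⟩
          · have e1 := hφ h2
            rw [Prod.mk.injEq] at e1
            obtain ⟨rfl, rfl⟩ := e1
            exact Or.inr (Or.inl ⟨l, b', h3, hl.tail h4⟩)
          · exact absurd h2 (hφs _)
          · have e1 := hφ h2
            rw [Prod.mk.injEq] at e1
            obtain ⟨rfl, rfl⟩ := e1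
            exact Or.inr (Or.inr ⟨h3, l, hl⟩)
        · rcases hab with ⟨l', a', b', h2, -, -⟩ | ⟨h2, -⟩ | ⟨-, l', h2⟩
          · exact absurd h2.symm (hφt _)
          · exact absurd h2.symm hst
          · exact absurd h2.symm (hφt _)
    rcases key t h with h1 | ⟨l, a, h1, -⟩ | ⟨-, h1⟩
    · exact absurd h1.symm hst
    · exact absurd h1.symm (hφt _)
    · exact h1
  · rintro ⟨l, h⟩
    have h1 : ∀ a, Relation.ReflTransGen (fun a b => E (l, (a, b)) = true) s0 a →
        Relation.ReflTransGen (fun a b => bit E (emb s t s0 t0 φ (a, b)) = true) s (φ (l, a)) := by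
      intro a ha
      induction ha with
      | refl =>
        apply Relation.ReflTransGen.single
        rw [emb_iff s t s0 t0 φ hφ hφs hφt]
        exact Or.inr (Or.inl ⟨rfl, l, rfl⟩)
      | tail _ hab ih =>
        refine ih.tail ?_
        rw [emb_iff s t s0 t0 φ hφ hφs hφt]
        exact Or.inl ⟨l, _, _, rfl, rfl, hab⟩
    refine (h1 t0 h).tail ?_
    rw [emb_iff s t s0 t0 φ hφ hφs hφt]
    exact Or.inr (Or.inr ⟨rfl, l, rfl⟩)

end

/-- **One graph.** -/
theorem one_lower {n m L : ℕ} (hm : 2 ^ 102 ≤ m) (hn : L * m + 2 ≤ n) (s t : Fin n) (hst : s ≠ t)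
    (N : Circuit (Fin n × Fin n)) (hN : ∀ E, N.value E = conn s t E)
    (hS : L * N.wires ≤ 2 ^ (Nat.log 2 m ^ 2 / 10)) : L ≤ negs N.gates := by
  classical
  obtain ⟨φ, hφ, hφs, hφt⟩ : ∃ φ : Fin L × Fin m → Fin n, Function.Injective φ ∧
      (∀ p, φ p ≠ s) ∧ ∀ p, φ p ≠ t := by
    have hc : Fintype.card (Fin L × Fin m) ≤
        Fintype.card {v : Fin n // v ∉ ({s, t} : Finset (Fin n))} := by
      rw [Fintype.card_prod, Fintype.card_fin, Fintype.card_fin,
        Fintype.card_subtype_compl, Fintype.card_coe, Fintype.card_fin]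
      have : ({s, t} : Finset (Fin n)).card ≤ 2 := card_le_two
      omega
    obtain ⟨ψ⟩ := Function.Embedding.nonempty_of_card_le hc
    refine ⟨fun p => (ψ p).1, Subtype.val_injective.comp ψ.injective, fun p hp => ?_, fun p hp => ?_⟩
    · apply (ψ p).2
      dsimp only at hp
      rw [hp]
      simp
    · apply (ψ p).2
      dsimp only at hp
      rw [hp]
      simp
  have hm0 : 2 ≤ m := le_trans (by norm_num) hm
  let s0 : Fin m := ⟨0, by omega⟩
  let t0 : Fin m := ⟨1, by omega⟩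
  have h1 := reach_lower hm s0 t0 (by simp [s0, t0]) (relabel (emb s t s0 t0 φ) N) ?_ hS
  · exact h1
  · intro E
    rw [relabel_value, hN]
    exact emb_conn s t s0 t0 φ hst hφ hφs hφt E

/-- **One graph with `n` vertices: `n ^ (1 - ε)` NOT gates are needed at polynomial size.** -/
theorem one_poly (a : ℕ) (ε : ℝ) (hε : 0 < ε) : ∃ n1 : ℕ, ∀ n ≥ n1, ∀ s t : Fin n, s ≠ t →
    ∀ N : Circuit (Fin n × Fin n), (∀ E, N.value E = conn s t E) → N.wires ≤ n ^ a →
      (n : ℝ) ^ (1 - ε) ≤ negs N.gates := by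
  set δ : ℝ := min ε 1 with hδ
  have hδ0 : 0 < δ := lt_min hε (by norm_num)
  have hδ1 : δ ≤ 1 := min_le_right _ _
  have hδε : δ ≤ ε := min_le_left _ _
  obtain ⟨c, hc⟩ := exists_nat_ge (4 / δ)
  have hc4 : (4 : ℝ) ≤ c := by
    refine le_trans ?_ hc
    rw [le_div_iff₀ hδ0]
    linarith
  have hc4' : 4 ≤ c := by exact_mod_cast hc4
  obtain ⟨Q, hQ⟩ : ∃ Q, Q = 102 + 20 * (1 + 2 * a) * c := ⟨_, rfl⟩
  refine ⟨2 ^ (c * Q), fun n hn s t hst N hN hS => ?_⟩
  have hn0 : n ≠ 0 := by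
    have := Nat.pow_pos (n := c * Q) (show 0 < 2 by norm_num)
    omega
  have hq1 : c * Q ≤ Nat.log 2 n := (Nat.le_log_iff_pow_le (by norm_num) hn0).2 hn
  have hn2 : n < 2 ^ (Nat.log 2 n + 1) := Nat.lt_pow_succ_log_self (by norm_num) n
  have hn1 : 2 ^ Nat.log 2 n ≤ n := Nat.pow_log_le_self 2 hn0
  generalize Nat.log 2 n = q at hq1 hn2 hn1
  obtain ⟨q0, hq0⟩ : ∃ q0, q0 = q / c := ⟨_, rfl⟩
  have h1 : Q ≤ q0 := by
    rw [hq0, Nat.le_div_iff_mul_le (by omega), mul_comm]
    exact hq1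
  have h2 : c * q0 ≤ q := by
    rw [hq0]
    exact Nat.mul_div_le _ _
  have h3 : q < c * (q0 + 1) := by
    rw [hq0]
    exact Nat.lt_mul_div_succ q (by omega)
  have h4 : 4 * q0 ≤ q := le_trans (Nat.mul_le_mul_right _ hc4') h2
  have h5 : 2 ^ (q - 1 - q0) ≤ negs N.gates := by
    apply one_lower (m := 2 ^ q0) (n := n) _ _ s t hst N hN
    · rw [Nat.log_pow (by norm_num)]
      calc 2 ^ (q - 1 - q0) * N.wires ≤ 2 ^ q * (2 ^ (q + 1)) ^ a := by
            apply Nat.mul_le_mul (Nat.pow_le_pow_right (by norm_num) (by omega))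
            exact hS.trans (Nat.pow_le_pow_left hn2.le a)
        _ = 2 ^ (q + (q + 1) * a) := by rw [← pow_mul, ← pow_add]
        _ ≤ 2 ^ (q0 ^ 2 / 10) := by
            apply Nat.pow_le_pow_right (by norm_num)
            rw [Nat.le_div_iff_mul_le (by norm_num)]
            have e1 : (q + 1) * a ≤ (2 * q) * a := Nat.mul_le_mul_right _ (by omega)
            have e2 : c * (q0 + 1) ≤ c * (2 * q0) := Nat.mul_le_mul_left _ (by omega)
            have e3 : (10 * (1 + 2 * a)) * q ≤ (10 * (1 + 2 * a)) * (c * (2 * q0)) :=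
              Nat.mul_le_mul_left _ (by omega)
            have e4 : (20 * (1 + 2 * a) * c) * q0 ≤ q0 * q0 := Nat.mul_le_mul_right _ (by omega)
            nlinarith
    · apply Nat.pow_le_pow_right (by norm_num)
      omega
    · rw [← pow_add]
      have e1 : q - 1 - q0 + q0 = q - 1 := by omega
      have e3 : 2 ^ q = 2 ^ (q - 1) * 2 := by
        rw [← pow_succ]
        congr 1
        omega
      have e4 : 2 ^ 1 ≤ 2 ^ (q - 1) := Nat.pow_le_pow_right (by norm_num) (by omega)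
      rw [e1]
      omega
  have hn1' : (1 : ℝ) ≤ n := by
    have : 1 ≤ n := by omega
    exact_mod_cast this
  refine le_trans (Real.rpow_le_rpow_of_exponent_le hn1' (show 1 - ε ≤ 1 - δ by linarith)) ?_
  have h6 : (n : ℝ) ≤ (2 : ℝ) ^ ((q : ℝ) + 1) := by
    have e1 : (n : ℝ) ≤ 2 ^ (q + 1) := by exact_mod_cast hn2.le
    have e2 : ((2 : ℝ) ^ ((q : ℝ) + 1)) = 2 ^ (q + 1) := by
      rw [← Real.rpow_natCast]
      push_cast
      rfl
    rwa [e2]
  have h7 : ((q - 1 - q0 : ℕ) : ℝ) = (q : ℝ) - 1 - q0 := by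
    rw [Nat.cast_sub (by omega), Nat.cast_sub (by omega)]
    simp
  have h8 : (q0 : ℝ) + 2 ≤ δ * (q + 1) := by
    have e1 : (c : ℝ) * q0 ≤ q := by exact_mod_cast h2
    have e2 : 4 ≤ δ * c := by
      rw [div_le_iff₀ hδ0] at hc
      linarith
    have e3 : (102 : ℝ) ≤ q0 := by
      have : 102 ≤ q0 := by omega
      exact_mod_cast this
    have e4 : δ * (c * q0) ≤ δ * q := mul_le_mul_of_nonneg_left e1 hδ0.le
    nlinarith
  calc (n : ℝ) ^ (1 - δ) ≤ ((2 : ℝ) ^ ((q : ℝ) + 1)) ^ (1 - δ) :=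
        Real.rpow_le_rpow (by linarith) h6 (by linarith)
    _ = (2 : ℝ) ^ (((q : ℝ) + 1) * (1 - δ)) := by rw [← Real.rpow_mul (by norm_num)]
    _ ≤ (2 : ℝ) ^ ((q - 1 - q0 : ℕ) : ℝ) := by
        apply Real.rpow_le_rpow_of_exponent_le (by norm_num)
        rw [h7]
        linarith
    _ = ((2 ^ (q - 1 - q0) : ℕ) : ℝ) := by
        rw [Real.rpow_natCast]
        push_cast
        rfl
    _ ≤ negs N.gates := by exact_mod_cast h5

end Pool.Agent.L5helper35.CT
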