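import Pool.Agent.L5helper35.CN.Calc

/-!
# Programs of conditional comparators are comparator circuits
-/

namespace Pool.Agent.L5helper35.CT

open Finset Pool.Agent.L5helper35.CN

/-- operations: put a `1` on a wire; a comparator which is applied if the bit of the label is `1` -/
inductive Op (W I : Type)
  | inj (w : W) : Op W I
  | mv (l : I ⊕ Bool) (a b : W) : Op W I

variable {W I : Type} [DecidableEq W]

/-- the effect of an operation -/
def Op.act (x : I → Bool) : Op W I → (W → Bool) → W → Bool
  | .inj w, P => fun u => if u = w then true else P u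
  | .mv l a b, P => if bit x l = true then step (.cmp a b) P else P

/-- the effect of a program -/
def acts (x : I → Bool) : List (Op W I) → (W → Bool) → W → Bool
  | [], P => P
  | o :: L, P => acts x L (o.act x P)

/-- the two wires are different -/
def Op.Ok : Op W I → Prop
  | .inj _ => True
  | .mv _ a b => a ≠ b

theorem gadget (o : Op W I) (ho : o.Ok) : ∃ (lab : Bool → I ⊕ Bool) (G : List (Gate (W ⊕ Bool))),
    ∀ (x : I → Bool) (P : W → Bool) (w : W),
      run G (Sum.elim P fun z => bit x (lab z)) (.inl w) = o.act x P w := by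
  cases o with
  | inj w0 =>
    refine ⟨fun _ => .inr true, [.cmp (.inr true) (.inl w0)], fun x P w => ?_⟩
    simp only [run, step, Op.act]
    by_cases hw : w = w0
    · subst hw
      simp [bit]
    · simp [hw]
  | mv l a b =>
    have hab : a ≠ b := ho
    have hba : b ≠ a := hab.symm
    refine ⟨fun _ => l, [.neg (.inr true), .cmp (.inr false) (.inl a), .cmp (.inr false) (.inl b),
      .cmp (.inl a) (.inr true), .cmp (.inr false) (.inl a)], fun x P w => ?_⟩
    by_cases ha : w = a
    · subst ha
      by_cases hl : bit x l = true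
      · simp [run, step, Op.act, hab, hba, hl]
      · simp [run, step, Op.act, hab, hba, hl]
    · by_cases hb : w = b
      · subst hb
        by_cases hl : bit x l = true
        · simp [run, step, Op.act, hab, hba, hl, ha]
        · simp [run, step, Op.act, hab, hba, hl, ha]
      · by_cases hl : bit x l = true
        · simp [run, step, Op.act, hl, ha, hb]
        · simp [run, step, Op.act, hl, ha, hb]

theorem compile (L : List (Op W I)) (hL : ∀ o ∈ L, o.Ok) : ∃ (Z : Type) (_ : Fintype Z)
    (_ : DecidableEq Z) (lab : Z → I ⊕ Bool) (G : List (Gate (W ⊕ Z))),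
    Fintype.card Z = 2 * L.length ∧ ∀ (x : I → Bool) (P : W → Bool) (w : W),
      run G (Sum.elim P fun z => bit x (lab z)) (.inl w) = acts x L P w := by
  induction L with
  | nil =>
    refine ⟨Empty, inferInstance, inferInstance, fun z => z.elim, [], by simp, fun x P w => rfl⟩
  | cons o L ih =>
    obtain ⟨Z1, i1, i2, lab1, G1, hc, h1⟩ := ih fun o ho => hL o (by simp [ho])
    obtain ⟨lab0, G0, h0⟩ := gadget o (hL o (by simp))
    let φ1 : W ⊕ Bool → W ⊕ (Bool ⊕ Z1) := Sum.map id Sum.inl
    let φ2 : W ⊕ Z1 → W ⊕ (Bool ⊕ Z1) := Sum.map id Sum.inr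
    have hφ1 : Function.Injective φ1 := Function.Injective.sumMap Function.injective_id Sum.inl_injective
    have hφ2 : Function.Injective φ2 := Function.Injective.sumMap Function.injective_id Sum.inr_injective
    refine ⟨Bool ⊕ Z1, inferInstance, inferInstance, Sum.elim lab0 lab1,
      G0.map (Gate.map φ1) ++ G1.map (Gate.map φ2), ?_, fun x P w => ?_⟩
    · rw [Fintype.card_sum, hc, Fintype.card_bool, List.length_cons]
      ring
    · rw [run_append]
      set v : W ⊕ (Bool ⊕ Z1) → Bool := Sum.elim P fun z => bit x (Sum.elim lab0 lab1 z) with hv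
      set v1 := run (G0.map (Gate.map φ1)) v with hv1
      have e0 : (fun u => v (φ1 u)) = Sum.elim P fun z => bit x (lab0 z) := by
        funext u
        rcases u with u | u <;> rfl
      have e1 : (fun u => v1 (φ2 u)) = Sum.elim (o.act x P) fun z => bit x (lab1 z) := by
        funext u
        rcases u with u | u
        · have h2 := (run_map φ1 hφ1 G0 v).1 (.inl u)
          rw [e0, h0] at h2
          exact h2
        · have h2 := (run_map φ1 hφ1 G0 v).2 (.inr (.inr u)) (by
            rintro (w | w) h
            · simp [φ1] at h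
            · simp [φ1] at h)
          exact h2
      have h3 := (run_map φ2 hφ2 G1 v1).1 (.inl w)
      rw [e1, h1] at h3
      exact h3

/-- programs as circuits; the initial state is `0` -/
theorem cmp_prog [Fintype W] (L : List (Op W I)) (hL : ∀ o ∈ L, o.Ok) (o : W) :
    ∃ t, Cmp t (Fintype.card W + 2 * L.length) fun x => acts x L (fun _ => false) o := by
  obtain ⟨Z, i1, i2, lab, G, hc, h⟩ := compile L hL
  have h1 := cmp_of_type (Sum.elim (fun _ : W => (.inr false : I ⊕ Bool)) lab) G (.inl o)
  rw [Fintype.card_sum, hc] at h1
  refine ⟨negs G, ?_⟩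
  have e : (fun x : I → Bool => run G (fun w => bit x (Sum.elim (fun _ : W => (.inr false : I ⊕ Bool))
      lab w)) (.inl o)) = fun x => acts x L (fun _ => false) o := by
    funext x
    rw [← h x (fun _ => false) o]
    congr 1
    funext u
    rcases u with u | u <;> rfl
  rw [e] at h1
  exact h1

/-- disjunctions -/
theorem cmp_any {α : Type} (ks : List α) {S : ℕ} (f : α → (I → Bool) → Bool)
    (h : ∀ k, ∃ t, Cmp t S (f k)) :
    ∃ t, Cmp t (ks.length * S + 1) (fun x => ks.any fun k => f k x) := by
  induction ks with
  | nil =>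
    have := cmp_label (I := I) (.inr false)
    exact ⟨0, by simpa [bit] using this⟩
  | cons a ks ih =>
    obtain ⟨t1, h1⟩ := h a
    obtain ⟨t2, h2⟩ := ih
    have h3 := h1.or h2
    refine ⟨t1 + t2, ?_⟩
    simp only [List.any_cons, List.length_cons]
    exact h3.mono le_rfl (by ring_nf; omega)

end Pool.Agent.L5helper35.CT
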