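import Pool.Agent.L5helper35.CT.One

/-!
# Reachability in one graph: the size for at most `n ^ (1 - δ)` NOT gates
-/

namespace Pool.Agent.L5helper35.CT

open Finset Pool.Agent.L5helper35.CN

/-- **One graph with `n` vertices: with fewer than `n ^ (1 - δ)` NOT gates the size is at least
`n ^ (δ ^ 2 / 11 * log n)`.** -/
theorem one_quant (δ : ℝ) (hδ0 : 0 < δ) (hδ1 : δ ≤ 1) : ∃ n1 : ℕ, ∀ n ≥ n1, ∀ s t : Fin n, s ≠ t →
    ∀ N : Circuit (Fin n × Fin n), (∀ E, N.value E = conn s t E) →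
      (negs N.gates : ℝ) < (n : ℝ) ^ (1 - δ) →
      (n : ℝ) ^ (δ ^ 2 / 11 * Real.logb 2 n) ≤ N.wires := by
  obtain ⟨B, hB⟩ := exists_nat_ge (220 / δ ^ 2)
  refine ⟨2 ^ B, fun n hn s t hst N hN hk => ?_⟩
  have hn0 : n ≠ 0 := by
    have := Nat.pow_pos (n := B) (show 0 < 2 by norm_num)
    omega
  have hq1 : B ≤ Nat.log 2 n := (Nat.le_log_iff_pow_le (by norm_num) hn0).2 hn
  have hn2 : n < 2 ^ (Nat.log 2 n + 1) := Nat.lt_pow_succ_log_self (by norm_num) n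
  have hn1 : 2 ^ Nat.log 2 n ≤ n := Nat.pow_log_le_self 2 hn0
  generalize Nat.log 2 n = q at hq1 hn2 hn1
  set Q : ℝ := (q : ℝ) + 1 with hQ
  have hBq : (B : ℝ) ≤ q := by exact_mod_cast hq1
  have hδ2 : 0 < δ ^ 2 := by positivity
  have h1 : 220 ≤ δ ^ 2 * Q := by
    rw [div_le_iff₀ hδ2] at hB
    have : (B : ℝ) * δ ^ 2 ≤ Q * δ ^ 2 := mul_le_mul_of_nonneg_right (by linarith) hδ2.le
    linarith
  have hQ0 : 0 < Q := by positivity
  have h2 : 220 ≤ δ * Q := by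
    have : δ ^ 2 * Q ≤ δ * Q := by
      apply mul_le_mul_of_nonneg_right _ hQ0.le
      nlinarith
    linarith
  have h3 : δ * Q ≤ Q := by nlinarith
  have f1 : ((⌊δ * Q⌋₊ : ℕ) : ℝ) ≤ δ * Q := Nat.floor_le (by positivity)
  have f2 : δ * Q < (⌊δ * Q⌋₊ : ℕ) + 1 := Nat.lt_floor_add_one _
  have f3 : 220 ≤ ⌊δ * Q⌋₊ := Nat.le_floor (by exact_mod_cast h2)
  generalize ⌊δ * Q⌋₊ = p at f1 f2 f3
  obtain ⟨q0, hq0⟩ : ∃ q0, p = q0 + 2 := ⟨p - 2, by omega⟩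
  have g1 : (q0 : ℝ) + 2 ≤ δ * Q := by
    have : (p : ℝ) = q0 + 2 := by exact_mod_cast hq0
    linarith
  have g2 : δ * Q - 3 ≤ (q0 : ℝ) := by
    have : (p : ℝ) = q0 + 2 := by exact_mod_cast hq0
    linarith
  have g3 : 102 ≤ q0 := by omega
  have g4 : q0 + 1 ≤ q := by
    have : (q0 : ℝ) + 2 ≤ q + 1 := by linarith
    have : q0 + 2 ≤ q + 1 := by exact_mod_cast this
    omega
  have hcast : ((q - 1 - q0 : ℕ) : ℝ) = (q : ℝ) - 1 - q0 := by
    rw [Nat.cast_sub (by omega), Nat.cast_sub (by omega)]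
    simp
  have hn1' : (1 : ℝ) ≤ n := by
    have : 1 ≤ n := by omega
    exact_mod_cast this
  have h6 : (n : ℝ) ≤ (2 : ℝ) ^ Q := by
    have e1 : (n : ℝ) ≤ 2 ^ (q + 1) := by exact_mod_cast hn2.le
    have e2 : ((2 : ℝ) ^ Q) = 2 ^ (q + 1) := by
      rw [hQ, ← Real.rpow_natCast]
      push_cast
      rfl
    rwa [e2]
  -- fewer than `L` NOT gates
  have h7 : negs N.gates < 2 ^ (q - 1 - q0) := by
    have e1 : (negs N.gates : ℝ) < ((2 ^ (q - 1 - q0) : ℕ) : ℝ) := by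
      calc (negs N.gates : ℝ) < (n : ℝ) ^ (1 - δ) := hk
        _ ≤ ((2 : ℝ) ^ Q) ^ (1 - δ) := Real.rpow_le_rpow (by linarith) h6 (by linarith)
        _ = (2 : ℝ) ^ (Q * (1 - δ)) := by rw [← Real.rpow_mul (by norm_num)]
        _ ≤ (2 : ℝ) ^ ((q - 1 - q0 : ℕ) : ℝ) := by
            apply Real.rpow_le_rpow_of_exponent_le (by norm_num)
            rw [hcast]
            linarith
        _ = ((2 ^ (q - 1 - q0) : ℕ) : ℝ) := by
            rw [Real.rpow_natCast]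
            push_cast
            rfl
    exact_mod_cast e1
  have h8 : 2 ^ (q0 ^ 2 / 10) < 2 ^ (q - 1 - q0) * N.wires := by
    by_contra hcon
    push Not at hcon
    refine absurd (one_lower (m := 2 ^ q0) (n := n) (L := 2 ^ (q - 1 - q0))
      (Nat.pow_le_pow_right (by norm_num) g3) ?_ s t hst N hN ?_) (by omega)
    · rw [← pow_add]
      have e1 : q - 1 - q0 + q0 = q - 1 := by omega
      have e3 : 2 ^ q = 2 ^ (q - 1) * 2 := by
        rw [← pow_succ]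
        congr 1
        omega
      have e4 : 2 ^ 1 ≤ 2 ^ (q - 1) := Nat.pow_le_pow_right (by norm_num) (by omega)
      rw [e1]
      omega
    · rw [Nat.log_pow (by norm_num)]
      exact hcon
  have h9 : (2 : ℝ) ^ ((q0 ^ 2 / 10 : ℕ) : ℝ) < (2 : ℝ) ^ (q : ℝ) * N.wires := by
    rw [Real.rpow_natCast, Real.rpow_natCast]
    have e1 : 2 ^ (q0 ^ 2 / 10) < 2 ^ q * N.wires :=
      lt_of_lt_of_le h8 (Nat.mul_le_mul_right _ (Nat.pow_le_pow_right (by norm_num) (by omega)))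
    exact_mod_cast e1
  have h10 : δ ^ 2 / 11 * Q * Q + q ≤ ((q0 ^ 2 / 10 : ℕ) : ℝ) := by
    have e1 : ((q0 : ℝ) ^ 2) / 10 - 1 ≤ ((q0 ^ 2 / 10 : ℕ) : ℝ) := by
      have : q0 ^ 2 < 10 * (q0 ^ 2 / 10) + 10 := by omega
      have : ((q0 : ℝ) ^ 2) < 10 * ((q0 ^ 2 / 10 : ℕ) : ℝ) + 10 := by exact_mod_cast this
      linarith
    have e2 : (δ * Q - 3) ^ 2 ≤ (q0 : ℝ) ^ 2 := pow_le_pow_left₀ (by linarith) g2 2
    have e3 : 220 * Q ≤ δ ^ 2 * Q * Q := mul_le_mul_of_nonneg_right h1 hQ0.le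
    have e4 : (δ * Q - 3) ^ 2 = δ ^ 2 * Q * Q - 6 * (δ * Q) + 9 := by ring
    have e5 : (q : ℝ) = Q - 1 := by rw [hQ]; ring
    rw [e4] at e2
    rw [e5]
    linarith
  have h11 : (2 : ℝ) ^ (δ ^ 2 / 11 * Q * Q) * (2 : ℝ) ^ (q : ℝ) < (2 : ℝ) ^ (q : ℝ) * N.wires := by
    rw [← Real.rpow_add (by norm_num)]
    exact lt_of_le_of_lt (Real.rpow_le_rpow_of_exponent_le (by norm_num) h10) h9
  have h12 : (2 : ℝ) ^ (δ ^ 2 / 11 * Q * Q) < N.wires := by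
    rw [mul_comm] at h11
    exact lt_of_mul_lt_mul_left h11 (by positivity)
  have h13 : Real.logb 2 n ≤ Q := by
    rw [Real.logb_le_iff_le_rpow (by norm_num) (by linarith)]
    exact h6
  have h14 : 0 ≤ Real.logb 2 n := Real.logb_nonneg (by norm_num) hn1'
  calc (n : ℝ) ^ (δ ^ 2 / 11 * Real.logb 2 n)
      ≤ ((2 : ℝ) ^ Q) ^ (δ ^ 2 / 11 * Real.logb 2 n) :=
        Real.rpow_le_rpow (by linarith) h6 (by positivity)
    _ = (2 : ℝ) ^ (Q * (δ ^ 2 / 11 * Real.logb 2 n)) := by rw [← Real.rpow_mul (by norm_num)]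
    _ ≤ (2 : ℝ) ^ (δ ^ 2 / 11 * Q * Q) := by
        apply Real.rpow_le_rpow_of_exponent_le (by norm_num)
        have e1 : δ ^ 2 / 11 * Real.logb 2 n ≤ δ ^ 2 / 11 * Q :=
          mul_le_mul_of_nonneg_left h13 (by positivity)
        calc Q * (δ ^ 2 / 11 * Real.logb 2 n) ≤ Q * (δ ^ 2 / 11 * Q) :=
              mul_le_mul_of_nonneg_left e1 hQ0.le
          _ = _ := by ring
    _ ≤ N.wires := h12.le

end Pool.Agent.L5helper35.CT
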