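import Pool.Agent.L5helper35.CT.Walk

/-!
# Comparator circuits for reachability need many NOT gates
-/

namespace Pool.Agent.L5helper35.CT

open Finset Pool.Agent.L5helper35.CN

theorem reach_explicit {V : Type} [Fintype V] {L : ℕ} (s t : V) (hst : s ≠ t) (d : ℕ)
    (hV : 16 ^ d + 2 ≤ Fintype.card V) (N : Circuit (Fin L × (V × V)))
    (hN : ComputesOr (conn s t) N) (ht : negs N.gates < L) :
    4 ^ (d * (d + 1)) ≤ L * (Fintype.card V * Fintype.card V + 1) * N.wires + 1 := by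
  have h1 := no_help (conn s t) (conn_mono s t) N hN ht
  rw [Fintype.card_prod] at h1
  exact conn_lower s t hst d hV _ h1

/-- **Fewer than `L` NOT gates: `n ^ (log n / 10)` wires.** -/
theorem reach_lower {n L : ℕ} (hn : 2 ^ 102 ≤ n) (s t : Fin n) (hst : s ≠ t)
    (N : Circuit (Fin L × (Fin n × Fin n))) (hN : ComputesOr (conn s t) N)
    (hS : L * N.wires ≤ 2 ^ (Nat.log 2 n ^ 2 / 10)) : L ≤ negs N.gates := by
  by_contra hcon
  push Not at hcon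
  have hn0 : n ≠ 0 := by
    rintro rfl
    norm_num at hn
  have hq1 : 102 ≤ Nat.log 2 n := (Nat.le_log_iff_pow_le (by norm_num) hn0).2 hn
  have hn2 : n < 2 ^ (Nat.log 2 n + 1) := Nat.lt_pow_succ_log_self (by norm_num) n
  have hn1 : 2 ^ Nat.log 2 n ≤ n := Nat.pow_log_le_self 2 hn0
  generalize Nat.log 2 n = q at hq1 hn2 hn1 hS
  obtain ⟨d, hd⟩ : ∃ d, d = (q - 1) / 4 := ⟨_, rfl⟩
  have hd1 : 4 * d ≤ q - 1 := by omega
  have hd2 : q ≤ 4 * d + 4 := by omega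
  have h1 : 16 ^ d + 2 ≤ Fintype.card (Fin n) := by
    rw [Fintype.card_fin]
    have e1 : 16 ^ d = 2 ^ (4 * d) := by
      rw [pow_mul]
      norm_num
    have e2 : 2 ^ (4 * d) ≤ 2 ^ (q - 1) := Nat.pow_le_pow_right (by norm_num) hd1
    have e3 : 2 ^ q = 2 ^ (q - 1) * 2 := by
      rw [← pow_succ]
      congr 1
      omega
    have e4 : 2 ^ 1 ≤ 2 ^ (q - 1) := Nat.pow_le_pow_right (by norm_num) (by omega)
    omega
  have h2 := reach_explicit s t hst d h1 N hN hcon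
  rw [Fintype.card_fin] at h2
  have h3 : n * n + 1 ≤ 2 ^ (2 * q + 2) := by
    have e1 : n * n < 2 ^ (q + 1) * 2 ^ (q + 1) := Nat.mul_lt_mul'' hn2 hn2
    rw [← pow_add] at e1
    have e2 : q + 1 + (q + 1) = 2 * q + 2 := by ring
    rw [e2] at e1
    exact e1
  have h4 : L * (n * n + 1) * N.wires + 1 < 2 ^ (q ^ 2 / 10 + (2 * q + 2) + 1) := by
    have e1 : L * (n * n + 1) * N.wires = (L * N.wires) * (n * n + 1) := by ring
    rw [e1]
    have e2 : (L * N.wires) * (n * n + 1) ≤ 2 ^ (q ^ 2 / 10) * 2 ^ (2 * q + 2) :=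
      Nat.mul_le_mul hS h3
    rw [← pow_add] at e2
    have e3 : 2 ^ 1 ≤ 2 ^ (q ^ 2 / 10 + (2 * q + 2)) := Nat.pow_le_pow_right (by norm_num) (by omega)
    rw [pow_succ]
    omega
  have h5 : 4 ^ (d * (d + 1)) = 2 ^ (2 * (d * (d + 1))) := by
    rw [show (4 : ℕ) = 2 ^ 2 by norm_num, ← pow_mul]
  rw [h5] at h2
  have h6 := (Nat.pow_lt_pow_iff_right (show 1 < 2 by norm_num)).1 (lt_of_le_of_lt h2 h4)
  have h7 : 10 * (q ^ 2 / 10) ≤ q ^ 2 := Nat.mul_div_le _ _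
  have h8 : q * q ≤ 16 * (d * (d + 1)) + 4 * q := by
    have : q * q ≤ (4 * d + 4) * q := Nat.mul_le_mul_right _ hd2
    have h9 : 4 * d * q ≤ 4 * d * (4 * d + 4) := Nat.mul_le_mul_left _ hd2
    nlinarith
  nlinarith

/-- the number of input bits of the family -/
theorem card_fam (r : ℕ) : Fintype.card (Fin (2 ^ r ^ 3) × (Fin (2 ^ r ^ 2) × Fin (2 ^ r ^ 2))) =
    2 ^ (r ^ 3 + 2 * r ^ 2) := by
  rw [Fintype.card_prod, Fintype.card_prod, Fintype.card_fin, Fintype.card_fin, ← pow_add, ← pow_add]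
  congr 1
  ring

/-- **At polynomial size almost as many NOT gates as input bits are needed.** -/
theorem reach_poly (a : ℕ) : ∃ r0 : ℕ, ∀ r ≥ r0, ∀ s t : Fin (2 ^ r ^ 2), s ≠ t →
    ∀ N : Circuit (Fin (2 ^ r ^ 3) × (Fin (2 ^ r ^ 2) × Fin (2 ^ r ^ 2))),
      ComputesOr (conn s t) N →
      N.wires ≤ Fintype.card (Fin (2 ^ r ^ 3) × (Fin (2 ^ r ^ 2) × Fin (2 ^ r ^ 2))) ^ a →
      (Fintype.card (Fin (2 ^ r ^ 3) × (Fin (2 ^ r ^ 2) × Fin (2 ^ r ^ 2))) : ℝ) ^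
        (1 - 2 / ((r : ℝ) + 2)) ≤ negs N.gates := by
  refine ⟨10 * (3 * a + 1) + 11, fun r hr s t hst N hN hS => ?_⟩
  rw [card_fam] at hS ⊢
  have h1 : 2 ^ r ^ 3 ≤ negs N.gates := by
    apply reach_lower _ s t hst N hN
    · rw [Nat.log_pow (by norm_num)]
      calc 2 ^ r ^ 3 * N.wires ≤ 2 ^ r ^ 3 * (2 ^ (r ^ 3 + 2 * r ^ 2)) ^ a :=
            Nat.mul_le_mul_left _ hS
        _ = 2 ^ (r ^ 3 + (r ^ 3 + 2 * r ^ 2) * a) := by rw [← pow_mul, ← pow_add]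
        _ ≤ 2 ^ ((r ^ 2) ^ 2 / 10) := by
            apply Nat.pow_le_pow_right (by norm_num)
            rw [Nat.le_div_iff_mul_le (by norm_num)]
            have e1 : r ^ 2 ≤ r ^ 3 := Nat.pow_le_pow_right (by omega) (by norm_num)
            have e2 : (r ^ 3 + 2 * r ^ 2) * a ≤ 3 * r ^ 3 * a := Nat.mul_le_mul_right _ (by omega)
            have e3 : r ^ 3 * (10 * (3 * a + 1)) ≤ r ^ 3 * r := Nat.mul_le_mul_left _ (by omega)
            nlinarith
    · apply Nat.pow_le_pow_right (by norm_num)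
      have : 11 * 11 ≤ r * r := Nat.mul_le_mul (by omega) (by omega)
      nlinarith
  have h2 : ((2 ^ (r ^ 3 + 2 * r ^ 2) : ℕ) : ℝ) ^ (1 - 2 / ((r : ℝ) + 2)) = ((2 ^ r ^ 3 : ℕ) : ℝ) := by
    have hr0 : (0 : ℝ) ≤ r := Nat.cast_nonneg _
    rw [Nat.cast_pow, Nat.cast_pow, ← Real.rpow_natCast, ← Real.rpow_natCast,
      ← Real.rpow_mul (by norm_num)]
    congr 1
    push_cast
    field_simp
    ring
  rw [h2]
  exact_mod_cast h1

end Pool.Agent.L5helper35.CT
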