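import Pool.Agent.L5helper35.CT.Walk

/-!
# Reachability by comparator circuits without NOT gates
-/

namespace Pool.Agent.L5helper35.CT

open Finset Pool.Agent.L5helper35.CN

section

variable {V I : Type}

/-- walks with `i` steps, loops included -/
def Walk (E : V → V → Prop) : ℕ → V → V → Prop
  | 0, u, v => u = v
  | i + 1, u, v => ∃ w, Walk E i u w ∧ (w = v ∨ E w v)

theorem walk_add (E : V → V → Prop) (i j : ℕ) (u : V) : ∀ v, Walk E (i + j) u v ↔
    ∃ w, Walk E i u w ∧ Walk E j w v := by
  induction j with
  | zero => intro v; simp [Walk]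
  | succ j ih =>
    intro v
    constructor
    · rintro ⟨w, h1, h2⟩
      obtain ⟨w', h3, h4⟩ := (ih w).1 h1
      exact ⟨w', h3, w, h4, h2⟩
    · rintro ⟨w', h3, w, h4, h2⟩
      exact ⟨w, (ih w).2 ⟨w', h3, h4⟩, h2⟩

theorem walk_mono (E : V → V → Prop) (u v : V) {i j : ℕ} (hij : i ≤ j) (h : Walk E i u v) :
    Walk E j u v := by
  induction hij with
  | refl => exact h
  | step _ ih => exact ⟨v, ih, Or.inl rfl⟩

theorem walk_reach (E : V → V → Prop) (u : V) (i : ℕ) : ∀ v, Walk E i u v →
    Relation.ReflTransGen E u v := by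
  induction i with
  | zero =>
    intro v h
    have h' : u = v := h
    rw [h']
  | succ i ih =>
    rintro v ⟨w, h1, h2⟩
    rcases h2 with h2 | h2
    · rw [← h2]
      exact ih w h1
    · exact (ih w h1).tail h2

variable [DecidableEq V] [Fintype V]

/-- paths are not longer than the number of vertices -/
theorem reach_walk (n : ℕ) (hn : Fintype.card V = n) (ℓ : V × V → I ⊕ Bool) (x : I → Bool)
    (s t : V) (h : Relation.ReflTransGen (fun a b => bit x (ℓ (a, b)) = true) s t) :
    Walk (fun a b => bit x (ℓ (a, b)) = true) n s t := by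
  classical
  have h1 := stat_complete n hn ℓ s t x
    (fun w => decide (Walk (fun a b => bit x (ℓ (a, b)) = true) w.2.val s w.1)) ?_ h
  · rwa [decide_eq_true_eq] at h1
  intro o ho
  rcases phase_cases n ℓ s o ho with rfl | ⟨u, v, i, rfl⟩
  · funext w
    simp only [Op.act]
    split_ifs with hw
    · symm
      rw [hw, decide_eq_true_eq]
      rfl
    · rfl
  · by_cases hl : bit x (lb ℓ u v) = true
    · have key : Walk (fun a b => bit x (ℓ (a, b)) = true) i.val s u →
          Walk (fun a b => bit x (ℓ (a, b)) = true) (i.val + 1) s v := by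
        intro h2
        refine ⟨u, h2, ?_⟩
        unfold lb at hl
        split_ifs at hl with huv
        · exact Or.inl huv
        · exact Or.inr hl
      funext w
      simp only [Op.act, if_pos hl, step]
      split_ifs with h3 h4
      · rw [h3]
        simp only [Fin.val_castSucc, Fin.val_succ]
        rw [Bool.eq_iff_iff, Bool.and_eq_true, decide_eq_true_eq, decide_eq_true_eq]
        exact ⟨fun h => h.1, fun h => ⟨h, key h⟩⟩
      · rw [h4]
        simp only [Fin.val_castSucc, Fin.val_succ]
        rw [Bool.eq_iff_iff, Bool.or_eq_true, decide_eq_true_eq, decide_eq_true_eq]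
        exact ⟨fun h => h.elim key id, fun h => Or.inr h⟩
      · rfl
    · simp only [Op.act, if_neg hl]

/-- repeated squaring -/
noncomputable def sq (ℓ : V × V → I ⊕ Bool) : ℕ → V → V → (I → Bool) → Bool
  | 0, u, v => fun x => bit x (lb ℓ u v)
  | j + 1, u, v => fun x => (univ : Finset V).toList.any fun w => sq ℓ j u w x && sq ℓ j w v x

theorem sq_iff (ℓ : V × V → I ⊕ Bool) (x : I → Bool) (j : ℕ) : ∀ u v, sq ℓ j u v x = true ↔
    Walk (fun a b => bit x (ℓ (a, b)) = true) (2 ^ j) u v := by
  induction j with
  | zero =>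
    intro u v
    simp only [sq, pow_zero, Walk, exists_eq_left', lb]
    split_ifs with h
    · simp [bit, h]
    · simp [h]
  | succ j ih =>
    intro u v
    rw [pow_succ, mul_two, walk_add]
    simp only [sq, List.any_eq_true, Bool.and_eq_true, ih, mem_toList, mem_univ, true_and]

theorem cmp_any0 {α : Type} (ks : List α) {S : ℕ} (f : α → (I → Bool) → Bool)
    (h : ∀ k, Cmp 0 S (f k)) : Cmp 0 (ks.length * S + 1) (fun x => ks.any fun k => f k x) := by
  induction ks with
  | nil =>
    have := cmp_label (I := I) (.inr false)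
    simpa [bit] using this
  | cons a ks ih =>
    have h3 := (h a).or ih
    simp only [List.any_cons, List.length_cons]
    exact h3.mono le_rfl (by ring_nf; omega)

theorem cmp_sq (ℓ : V × V → I ⊕ Bool) (j : ℕ) : ∀ u v,
    Cmp 0 ((2 * Fintype.card V + 1) ^ j) (sq ℓ j u v) := by
  induction j with
  | zero => intro u v; exact cmp_label _
  | succ j ih =>
    intro u v
    have h1 := cmp_any0 (univ : Finset V).toList (fun w x => sq ℓ j u w x && sq ℓ j w v x)
      (fun w => (ih u w).and (ih w v))
    rw [length_toList, card_univ] at h1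
    have h2 : 1 ≤ (2 * Fintype.card V + 1) ^ j := Nat.one_le_pow _ _ (by omega)
    refine h1.mono le_rfl ?_
    rw [pow_succ]
    nlinarith

/-- **Circuits without NOT gates.** -/
theorem upper_zero (L : ℕ) (s t : V) : ∃ N : Circuit (Fin L × (V × V)),
    ComputesOr (conn s t) N ∧ negs N.gates = 0 ∧
      N.wires ≤ L * (2 * Fintype.card V + 1) ^ (Nat.log 2 (Fintype.card V) + 1) + 1 := by
  obtain ⟨N, h0, h1, h2⟩ := cmp_any0 (List.finRange L)
    (fun (l : Fin L) => sq (fun e => (.inl (l, e) : (Fin L × (V × V)) ⊕ Bool))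
      (Nat.log 2 (Fintype.card V) + 1) s t)
    (fun l => cmp_sq (fun e => (.inl (l, e) : (Fin L × (V × V)) ⊕ Bool)) _ s t)
  rw [List.length_finRange] at h1
  refine ⟨N, fun E => ?_, by omega, h1⟩
  rw [h2, List.any_eq_true]
  simp only [List.mem_finRange, true_and]
  apply exists_congr
  intro l
  rw [sq_iff, conn_iff]
  constructor
  · intro h
    exact walk_reach _ s _ t h
  · intro h
    apply walk_mono _ s t (Nat.lt_pow_succ_log_self (b := 2) (by norm_num) _).le
    exact reach_walk _ rfl (fun e => (.inl (l, e) : (Fin L × (V × V)) ⊕ Bool)) E s t h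

end

end Pool.Agent.L5helper35.CT
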