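import Pool.Agent.L5helper35.CN.Fischer
import Pool.Agent.L5helper35.CT.Conn
import Pool.Agent.L5helper35.CT.Prog

/-!
# Reachability has comparator circuits of polynomial size
-/

namespace Pool.Agent.L5helper35.CT

open Finset Pool.Agent.L5helper35.CN

section

variable {W I : Type} [DecidableEq W]

theorem acts_append (x : I → Bool) (L M : List (Op W I)) : ∀ P,
    acts x (L ++ M) P = acts x M (acts x L P) := by
  induction L with
  | nil => intro P; rfl
  | cons o L ih => intro P; exact ih _

/-- the program `L` is repeated -/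
def reps (L : List (Op W I)) : ℕ → List (Op W I)
  | 0 => []
  | k + 1 => reps L k ++ L

theorem length_reps (L : List (Op W I)) (k : ℕ) : (reps L k).length = k * L.length := by
  induction k with
  | zero => simp [reps]
  | succ k ih =>
    simp only [reps, List.length_append, ih]
    ring

theorem mem_reps (L : List (Op W I)) (k : ℕ) (o : Op W I) (ho : o ∈ reps L k) : o ∈ L := by
  induction k with
  | zero => simp [reps] at ho
  | succ k ih =>
    simp only [reps, List.mem_append] at ho
    exact ho.elim ih id

theorem acts_inv (x : I → Bool) (Inv : (W → Bool) → Prop) (L : List (Op W I))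
    (h : ∀ o ∈ L, ∀ P, Inv P → Inv (o.act x P)) : ∀ P, Inv P → Inv (acts x L P) := by
  induction L with
  | nil => intro P hP; exact hP
  | cons o L ih =>
    intro P hP
    exact ih (fun o ho => h o (by simp [ho])) _ (h o (by simp) P hP)

theorem acts_fix (x : I → Bool) (L : List (Op W I)) (P : W → Bool)
    (h : ∀ o ∈ L, o.act x P = P) : acts x L P = P := by
  induction L with
  | nil => rfl
  | cons o L ih =>
    change acts x L (o.act x P) = P
    rw [h o (by simp)]
    exact ih fun o ho => h o (by simp [ho])

theorem acts_pot (x : I → Bool) (Φ : (W → Bool) → ℕ) (L : List (Op W I))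
    (h : ∀ o ∈ L, ∀ P, o.act x P = P ∨ Φ P < Φ (o.act x P)) : ∀ P,
    (∀ o ∈ L, o.act x P = P) ∨ Φ P < Φ (acts x L P) := by
  induction L with
  | nil => intro P; left; simp
  | cons o L ih =>
    intro P
    have ih' := ih (fun o ho => h o (by simp [ho]))
    rcases h o (by simp) P with h1 | h1
    · rcases ih' P with h2 | h2
      · left
        intro o' ho'
        rcases List.mem_cons.1 ho' with rfl | ho'
        · exact h1
        · exact h2 o' ho'
      · right
        change Φ P < Φ (acts x L (o.act x P))
        rw [h1]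
        exact h2
    · right
      change Φ P < Φ (acts x L (o.act x P))
      rcases ih' (o.act x P) with h2 | h2
      · rw [acts_fix x L _ h2]
        exact h1
      · exact h1.trans h2

/-- the states become stationary -/
theorem reps_fix (x : I → Bool) (Φ : (W → Bool) → ℕ) (L : List (Op W I)) (B : ℕ)
    (hB : ∀ P, Φ P ≤ B) (h : ∀ o ∈ L, ∀ P, o.act x P = P ∨ Φ P < Φ (o.act x P)) (P : W → Bool) :
    ∀ o ∈ L, o.act x (acts x (reps L (B + 1)) P) = acts x (reps L (B + 1)) P := by
  have h1 : ∀ k, (∀ o ∈ L, o.act x (acts x (reps L k) P) = acts x (reps L k) P) ∨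
      k ≤ Φ (acts x (reps L k) P) := by
    intro k
    induction k with
    | zero => right; exact Nat.zero_le _
    | succ k ih =>
      rw [show acts x (reps L (k + 1)) P = acts x L (acts x (reps L k) P) from
        acts_append x _ _ P]
      rcases acts_pot x Φ L h (acts x (reps L k) P) with h2 | h2
      · left
        rw [acts_fix x L _ h2]
        exact h2
      · rcases ih with ih | ih
        · left
          rw [acts_fix x L _ ih]
          exact ih
        · right
          omega
  rcases h1 (B + 1) with h2 | h2
  · exact h2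
  · have := hB (acts x (reps L (B + 1)) P)
    omega

end

section

variable {V I : Type} [DecidableEq V]

/-- the labels, with loops -/
def lb (ℓ : V × V → I ⊕ Bool) (u v : V) : I ⊕ Bool := if u = v then .inr true else ℓ (u, v)

/-- one phase of the program; a pebble on `(v, i)` can move to `(w, i + 1)` along an arc -/
noncomputable def phase [Fintype V] (n : ℕ) (ℓ : V × V → I ⊕ Bool) (s : V) :
    List (Op (V × Fin (n + 1)) I) :=
  .inj (s, 0) :: (univ : Finset (V × V × Fin n)).toList.map fun p =>
    .mv (lb ℓ p.1 p.2.1) (p.1, p.2.2.castSucc) (p.2.1, p.2.2.succ)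

theorem length_phase [Fintype V] (n : ℕ) (ℓ : V × V → I ⊕ Bool) (s : V) :
    (phase n ℓ s).length = Fintype.card V * (Fintype.card V * n) + 1 := by
  unfold phase
  rw [List.length_cons, List.length_map, length_toList, card_univ, Fintype.card_prod,
    Fintype.card_prod, Fintype.card_fin]

theorem phase_cases [Fintype V] (n : ℕ) (ℓ : V × V → I ⊕ Bool) (s : V)
    (o : Op (V × Fin (n + 1)) I) (ho : o ∈ phase n ℓ s) : o = .inj (s, 0) ∨
      ∃ (u v : V) (i : Fin n), o = .mv (lb ℓ u v) (u, i.castSucc) (v, i.succ) := by
  unfold phase at ho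
  rcases List.mem_cons.1 ho with h | h
  · exact Or.inl h
  · obtain ⟨p, -, hp⟩ := List.mem_map.1 h
    exact Or.inr ⟨p.1, p.2.1, p.2.2, hp.symm⟩

theorem inj_mem [Fintype V] (n : ℕ) (ℓ : V × V → I ⊕ Bool) (s : V) :
    .inj (s, 0) ∈ phase n ℓ s := by
  unfold phase
  simp

theorem mv_mem [Fintype V] (n : ℕ) (ℓ : V × V → I ⊕ Bool) (s u v : V) (i : Fin n) :
    .mv (lb ℓ u v) (u, i.castSucc) (v, i.succ) ∈ phase n ℓ s := by
  unfold phase
  apply List.mem_cons_of_mem
  rw [List.mem_map]
  exact ⟨(u, v, i), by simp, rfl⟩

theorem lv_ne (n : ℕ) (u v : V) (i : Fin n) :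
    ((u, i.castSucc) : V × Fin (n + 1)) ≠ (v, i.succ) := by
  intro h
  have h1 := congrArg (fun p : V × Fin (n + 1) => p.2.val) h
  simp at h1

theorem phase_ok [Fintype V] (n : ℕ) (ℓ : V × V → I ⊕ Bool) (s : V)
    (o : Op (V × Fin (n + 1)) I) (ho : o ∈ phase n ℓ s) : o.Ok := by
  rcases phase_cases n ℓ s o ho with rfl | ⟨u, v, i, rfl⟩
  · trivial
  · exact lv_ne n u v i

/-- the potential -/
def pot [Fintype V] {n : ℕ} (P : V × Fin (n + 1) → Bool) : ℕ :=
  ∑ w, if P w = true then w.2.val + 1 else 0

theorem pot_le [Fintype V] {n : ℕ} (P : V × Fin (n + 1) → Bool) :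
    pot P ≤ Fintype.card V * (n + 1) * (n + 1) := by
  unfold pot
  calc ∑ w, (if P w = true then w.2.val + 1 else 0) ≤ ∑ _w : V × Fin (n + 1), (n + 1) := by
        apply sum_le_sum
        intro w _
        have := w.2.isLt
        split_ifs <;> omega
    _ = _ := by
        rw [sum_const, card_univ, Fintype.card_prod, Fintype.card_fin, smul_eq_mul]

theorem act_pot [Fintype V] (n : ℕ) (ℓ : V × V → I ⊕ Bool) (s : V) (x : I → Bool)
    (o : Op (V × Fin (n + 1)) I) (ho : o ∈ phase n ℓ s) (P : V × Fin (n + 1) → Bool) :
    o.act x P = P ∨ pot P < pot (o.act x P) := by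
  rcases phase_cases n ℓ s o ho with rfl | ⟨u, v, i, rfl⟩
  · by_cases hP : P (s, 0) = true
    · left
      funext w
      simp only [Op.act]
      split_ifs with hw
      · rw [hw, hP]
      · rfl
    · right
      unfold pot
      apply sum_lt_sum
      · intro w _
        simp only [Op.act]
        split_ifs <;> simp_all
      · refine ⟨(s, 0), mem_univ _, ?_⟩
        rw [if_neg hP]
        simp [Op.act]
  · have hab := lv_ne n u v i
    by_cases hl : bit x (lb ℓ u v) = true
    · by_cases hP : P (u, i.castSucc) = true ∧ P (v, i.succ) = false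
      · right
        obtain ⟨h1, h2⟩ := hP
        have hact : ∀ w, (Op.mv (lb ℓ u v) (u, i.castSucc) (v, i.succ)).act x P w =
            if w = (u, i.castSucc) then false else if w = (v, i.succ) then true else P w := by
          intro w
          simp only [Op.act, if_pos hl, step, h1, h2, Bool.true_and, Bool.true_or]
        have e1 : pot P = (i.val + 1) + ∑ w ∈ (univ.erase (u, i.castSucc)).erase (v, i.succ),
            (if P w = true then w.2.val + 1 else 0) := by
          unfold pot
          rw [← add_sum_erase univ _ (mem_univ (u, i.castSucc)),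
            ← add_sum_erase (univ.erase (u, i.castSucc)) _ (mem_erase.2 ⟨hab.symm, mem_univ _⟩),
            if_pos h1, if_neg (by rw [h2]; simp)]
          simp
        have e2 : pot ((Op.mv (lb ℓ u v) (u, i.castSucc) (v, i.succ)).act x P) = (i.val + 2) +
            ∑ w ∈ (univ.erase (u, i.castSucc)).erase (v, i.succ),
            (if P w = true then w.2.val + 1 else 0) := by
          unfold pot
          rw [← add_sum_erase univ _ (mem_univ (u, i.castSucc)),
            ← add_sum_erase (univ.erase (u, i.castSucc)) _ (mem_erase.2 ⟨hab.symm, mem_univ _⟩)]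
          rw [if_neg (by rw [hact]; simp), if_pos (by rw [hact]; simp [hab.symm])]
          have e3 : ∀ w ∈ (univ.erase (u, i.castSucc)).erase (v, i.succ),
              (if (Op.mv (lb ℓ u v) (u, i.castSucc) (v, i.succ)).act x P w = true then
                w.2.val + 1 else 0) = if P w = true then w.2.val + 1 else 0 := by
            intro w hw
            rw [mem_erase, mem_erase] at hw
            rw [hact, if_neg hw.2.1, if_neg hw.1]
          rw [sum_congr rfl e3]
          simp
        rw [e1, e2]
        omega
      · left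
        funext w
        simp only [Op.act, if_pos hl, step]
        by_cases hwa : w = (u, i.castSucc)
        · rw [if_pos hwa, hwa]
          cases h1 : P (u, i.castSucc) <;> cases h2 : P (v, i.succ) <;> simp_all
        · rw [if_neg hwa]
          by_cases hwb : w = (v, i.succ)
          · rw [if_pos hwb, hwb]
            cases h1 : P (u, i.castSucc) <;> cases h2 : P (v, i.succ) <;> simp_all
          · rw [if_neg hwb]
    · left
      simp only [Op.act, if_neg hl]

/-- soundness -/
theorem act_sound [Fintype V] (n : ℕ) (ℓ : V × V → I ⊕ Bool) (s : V) (x : I → Bool)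
    (o : Op (V × Fin (n + 1)) I) (ho : o ∈ phase n ℓ s) (P : V × Fin (n + 1) → Bool)
    (hP : ∀ w, P w = true → Relation.ReflTransGen (fun a b => bit x (ℓ (a, b)) = true) s w.1) :
    ∀ w, o.act x P w = true →
      Relation.ReflTransGen (fun a b => bit x (ℓ (a, b)) = true) s w.1 := by
  intro w hw
  rcases phase_cases n ℓ s o ho with rfl | ⟨u, v, i, rfl⟩
  · simp only [Op.act] at hw
    split_ifs at hw with h
    · rw [h]
    · exact hP w hw
  · simp only [Op.act] at hw
    split_ifs at hw with hl
    · simp only [step] at hw
      split_ifs at hw with h1 h2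
      · rw [Bool.and_eq_true] at hw
        rw [h1]
        exact hP _ hw.1
      · rw [Bool.or_eq_true] at hw
        rw [h2]
        rcases hw with hw | hw
        · have h3 := hP _ hw
          unfold lb at hl
          split_ifs at hl with huv
          · rw [← huv]
            exact h3
          · exact h3.tail hl
        · exact hP _ hw
      · exact hP _ hw
    · exact hP _ hw

/-- completeness -/
theorem stat_complete [Fintype V] (n : ℕ) (hn : Fintype.card V = n) (ℓ : V × V → I ⊕ Bool)
    (s t : V) (x : I → Bool) (F : V × Fin (n + 1) → Bool)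
    (hF : ∀ o ∈ phase n ℓ s, o.act x F = F)
    (ht : Relation.ReflTransGen (fun a b => bit x (ℓ (a, b)) = true) s t) :
    F (t, Fin.last n) = true := by
  classical
  have hs : F (s, 0) = true := by
    have h1 := congrFun (hF _ (inj_mem n ℓ s)) (s, 0)
    rw [← h1]
    simp [Op.act]
  have hmv : ∀ (u v : V) (i : Fin n), bit x (lb ℓ u v) = true → F (u, i.castSucc) = true →
      F (v, i.succ) = true := by
    intro u v i hl hu
    have h1 := congrFun (hF _ (mv_mem n ℓ s u v i)) (u, i.castSucc)
    simp only [Op.act, if_pos hl, step, if_true, hu, Bool.true_and] at h1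
    exact h1
  have hloop : ∀ (u : V) (i : Fin n), F (u, i.castSucc) = true → F (u, i.succ) = true := by
    intro u i hu
    apply hmv u u i _ hu
    simp [lb, bit]
  have key : ∀ i : ℕ, ∀ hi : i < n + 1, F (s, ⟨i, hi⟩) = true ∧
      (i + 1 ≤ (univ.filter fun v => F (v, ⟨i, hi⟩) = true).card ∨
        ∀ v, Relation.ReflTransGen (fun a b => bit x (ℓ (a, b)) = true) s v →
          F (v, ⟨i, hi⟩) = true) := by
    intro i
    induction i with
    | zero =>
      intro hi
      refine ⟨hs, Or.inl ?_⟩
      rw [Nat.zero_add]
      exact card_pos.2 ⟨s, mem_filter.2 ⟨mem_univ _, hs⟩⟩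
    | succ i ih =>
      intro hi
      obtain ⟨h1, h2⟩ := ih (by omega)
      have hl1 : ∀ u, F (u, ⟨i, by omega⟩) = true → F (u, ⟨i + 1, hi⟩) = true := fun u hu =>
        hloop u ⟨i, by omega⟩ hu
      refine ⟨hl1 s h1, ?_⟩
      rcases h2 with h2 | h2
      · by_cases hc : ∀ u v : V, F (u, ⟨i, by omega⟩) = true → bit x (ℓ (u, v)) = true →
            F (v, ⟨i, by omega⟩) = true
        · right
          intro v hv
          apply hl1
          induction hv with
          | refl => exact h1
          | tail _ hab ih => exact hc _ _ ih hab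
        · left
          push Not at hc
          obtain ⟨u, v, hu, huv, hv⟩ := hc
          have h3 : F (v, ⟨i + 1, hi⟩) = true := by
            apply hmv u v ⟨i, by omega⟩ _ hu
            unfold lb
            split_ifs
            · rfl
            · exact huv
          have h4 : insert v (univ.filter fun v => F (v, ⟨i, by omega⟩) = true) ⊆
              univ.filter fun v => F (v, ⟨i + 1, hi⟩) = true := by
            intro w hw
            rw [mem_insert, mem_filter] at hw
            rw [mem_filter]
            rcases hw with rfl | hw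
            · exact ⟨mem_univ _, h3⟩
            · exact ⟨mem_univ _, hl1 w hw.2⟩
          have h5 := card_le_card h4
          rw [card_insert_of_notMem (by rw [mem_filter]; exact fun h => hv h.2)] at h5
          omega
      · right
        intro v hv
        exact hl1 v (h2 v hv)
  obtain ⟨-, h1 | h1⟩ := key n (by omega)
  · have h2 := card_le_univ (univ.filter fun v => F (v, ⟨n, by omega⟩) = true)
    omega
  · exact h1 t ht

/-- **Reachability is computed by small comparator circuits.** -/
theorem cmp_conn [Fintype V] (ℓ : V × V → I ⊕ Bool) (s t : V) : ∃ t',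
    Cmp t' (3 * (Fintype.card V + 1) ^ 6) fun x => conn s t fun e => bit x (ℓ e) := by
  obtain ⟨n, hn⟩ : ∃ n, Fintype.card V = n := ⟨_, rfl⟩
  set T := n * (n + 1) * (n + 1) with hT
  obtain ⟨t', h⟩ := cmp_prog (reps (phase n ℓ s) (T + 1))
    (fun o ho => phase_ok n ℓ s o (mem_reps _ _ o ho)) (t, Fin.last n)
  refine ⟨t', ?_⟩
  have e : (fun x => acts x (reps (phase n ℓ s) (T + 1)) (fun _ => false) (t, Fin.last n)) =
      fun x => conn s t fun e => bit x (ℓ e) := by
    funext x
    rw [Bool.eq_iff_iff, conn_iff]
    constructor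
    · intro h1
      have h2 := acts_inv x (fun P : V × Fin (n + 1) → Bool => ∀ w, P w = true →
        Relation.ReflTransGen (fun a b => bit x (ℓ (a, b)) = true) s w.1)
        (reps (phase n ℓ s) (T + 1))
        (fun o ho P hP => act_sound n ℓ s x o (mem_reps _ _ o ho) P hP) (fun _ => false)
        (fun w hw => absurd hw (by simp)) (t, Fin.last n) h1
      exact h2
    · intro h1
      apply stat_complete n hn ℓ s t x _ _ h1
      apply reps_fix x pot
      · intro P
        have := pot_le P
        rw [hn] at this
        exact this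
      · exact fun o ho P => act_pot n ℓ s x o ho P
  rw [e] at h
  apply h.mono le_rfl
  rw [length_reps, length_phase, Fintype.card_prod, Fintype.card_fin, hn]
  have h1 : T + 1 ≤ (n + 1) ^ 3 := by
    rw [hT]
    nlinarith [Nat.zero_le (n * n), Nat.zero_le n]
  have h2 : n * (n * n) + 1 ≤ (n + 1) ^ 3 := by
    nlinarith [Nat.zero_le (n * n), Nat.zero_le n]
  have h3 := Nat.mul_le_mul h1 h2
  have h4 : n * (n + 1) ≤ (n + 1) ^ 6 := by
    calc n * (n + 1) ≤ (n + 1) * (n + 1) := Nat.mul_le_mul_right _ (by omega)
      _ = (n + 1) ^ 2 := by ring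
      _ ≤ (n + 1) ^ 6 := Nat.pow_le_pow_right (by omega) (by norm_num)
  have h5 : (n + 1) ^ 3 * (n + 1) ^ 3 = (n + 1) ^ 6 := by ring
  rw [h5] at h3
  omega

/-- **Small circuits for the disjunction of `L` copies.** -/
theorem upper [Fintype V] (L : ℕ) (s t : V) : ∃ N : Circuit (Fin L × (V × V)),
    ComputesOr (conn s t) N ∧ N.nest ≤ 1 ∧ negs N.gates ≤ Fintype.card (Fin L × (V × V)) ∧
      N.wires ≤ 3 * (Fintype.card (Fin L × (V × V)) + 1) ^ 2 *
        (L * (3 * (Fintype.card V + 1) ^ 6) + 2) := by
  obtain ⟨t', N1, -, h1, h2⟩ := cmp_any (List.finRange L)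
    (fun (l : Fin L) (x : Fin L × (V × V) → Bool) => conn s t fun e => bit x (.inl (l, e)))
    (fun l => cmp_conn (fun e => (.inl (l, e) : (Fin L × (V × V)) ⊕ Bool)) s t)
  rw [List.length_finRange] at h1
  obtain ⟨N, k1, k2, k3, k4⟩ := fischer N1
  refine ⟨N, fun E => ?_, k1, k2, k3.trans (Nat.mul_le_mul_left _ (by omega))⟩
  rw [k4, h2, List.any_eq_true]
  simp only [bit, List.mem_finRange, true_and]

end

end Pool.Agent.L5helper35.CT
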